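import Mathlib

/-!
# Linear systems over `ZMod (2 ^ m)`: an elimination algorithm

A row is a list of natural numbers: the coefficients of the unknowns `0, ..., N - 1`, then the right
hand side. Numbers are read modulo `M`. The unknowns are eliminated one after the other: among
the coefficients of an unknown there is one which divides all others.
-/

set_option autoImplicit false

namespace Pool.Agent.CLA.P

/-- remainder -/
def md (M x : ℕ) : ℕ := x - M * (x / M)

/-- a number `d < M` with `a + d * b = 0` modulo `M`, if there is one, otherwise `M` -/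
def fd (M a b : ℕ) : ℕ :=
  ((List.range M).filter (fun d => decide (md M (a + d * b) = 0))).headD M

/-- the row `r + d p` -/
def cmb (M N : ℕ) (r : List ℕ) (d : ℕ) (p : List ℕ) : List ℕ :=
  (List.range (N + 1)).map (fun i => md M (r.getD i 0 + d * p.getD i 0))

/-- one row is compared with the current pivot row -/
def stp (M N j : ℕ) (s : List ℕ × List (List ℕ)) (r : List ℕ) : List ℕ × List (List ℕ) :=
  bif decide (fd M (r.getD j 0) (s.1.getD j 0) < M) then
    (s.1, cmb M N r (fd M (r.getD j 0) (s.1.getD j 0)) s.1 :: s.2)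
  else (r, cmb M N s.1 (fd M (s.1.getD j 0) (r.getD j 0)) r :: s.2)

/-- elimination of the unknown `j` -/
def cst (M N : ℕ) (rows : List (List ℕ)) (j : ℕ) : List (List ℕ) :=
  ((List.range (M + 1)).filter (fun d =>
      decide (md M (d * (rows.foldl (stp M N j) ([], [])).1.getD j 0) = 0))).map
    (fun d => cmb M N [] d (rows.foldl (stp M N j) ([], [])).1) ++
    (rows.foldl (stp M N j) ([], [])).2

/-- solvability -/
def slv (M N : ℕ) (rows : List (List ℕ)) : Bool :=
  ((List.range N).foldl (cst M N) rows).all (fun r => decide (md M (r.getD N 0) = 0))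

theorem md_eq (M x : ℕ) : md M x = x % M := (Nat.mod_eq_sub_mul_div (x := x) (k := M)).symm

theorem md_zero_iff (M x : ℕ) : md M x = 0 ↔ (x : ZMod M) = 0 := by
  rw [md_eq, ZMod.natCast_eq_zero_iff, Nat.dvd_iff_mod_eq_zero]

theorem md_cast (M x : ℕ) : (md M x : ZMod M) = x := by
  rw [md_eq, ZMod.natCast_mod]

theorem fd_spec {M a b : ℕ} (h : fd M a b < M) : ((a + fd M a b * b : ℕ) : ZMod M) = 0 := by
  unfold fd at h ⊢
  cases hl : (List.range M).filter (fun d => decide (md M (a + d * b) = 0)) with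
  | nil =>
    rw [hl] at h
    simp at h
  | cons x l =>
    have hx : x ∈ (List.range M).filter (fun d => decide (md M (a + d * b) = 0)) := by
      rw [hl]
      exact List.mem_cons_self
    rw [List.mem_filter, decide_eq_true_eq, md_zero_iff] at hx
    simpa using hx.2

theorem fd_lt {M a b d : ℕ} (hd : d < M) (h : ((a + d * b : ℕ) : ZMod M) = 0) : fd M a b < M := by
  unfold fd
  have hx : d ∈ (List.range M).filter (fun d => decide (md M (a + d * b) = 0)) := by
    rw [List.mem_filter, decide_eq_true_eq, md_zero_iff]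
    exact ⟨List.mem_range.2 hd, h⟩
  cases hl : (List.range M).filter (fun d => decide (md M (a + d * b) = 0)) with
  | nil =>
    rw [hl] at hx
    exact absurd hx (List.not_mem_nil)
  | cons x l =>
    have hx' : x ∈ (List.range M).filter (fun d => decide (md M (a + d * b) = 0)) := by
      rw [hl]
      exact List.mem_cons_self
    rw [List.mem_filter, List.mem_range] at hx'
    simpa using hx'.1

/-! ### Arithmetic modulo `2 ^ m` -/

theorem zm_key {M : ℕ} [NeZero M] (a b : ZMod M) (h : addOrderOf b • a = 0) :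
    a ∈ AddSubgroup.zmultiples b := by
  classical
  have hpos : 0 < addOrderOf b := addOrderOf_pos b
  have h1 := IsAddCyclic.card_nsmul_eq_zero_le (α := ZMod M) hpos
  have h2 : (Finset.univ.filter (fun z : ZMod M => z ∈ AddSubgroup.zmultiples b)).card =
      addOrderOf b := by
    rw [← Nat.card_zmultiples, Nat.card_eq_fintype_card, Fintype.card_subtype]
  have h3 : Finset.univ.filter (fun z : ZMod M => z ∈ AddSubgroup.zmultiples b) ⊆
      Finset.univ.filter (fun z : ZMod M => addOrderOf b • z = 0) := by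
    intro z hz
    rw [Finset.mem_filter] at hz ⊢
    obtain ⟨k, rfl⟩ := AddSubgroup.mem_zmultiples_iff.1 hz.2
    refine ⟨Finset.mem_univ _, ?_⟩
    rw [smul_comm, addOrderOf_nsmul_eq_zero, smul_zero]
  have h4 := Finset.eq_of_subset_of_card_le h3 (by rw [h2]; exact h1)
  have h5 : a ∈ Finset.univ.filter (fun z : ZMod M => addOrderOf b • z = 0) := by
    rw [Finset.mem_filter]
    exact ⟨Finset.mem_univ _, h⟩
  rw [← h4, Finset.mem_filter] at h5
  exact h5.2

theorem zm_total {m : ℕ} (a b : ZMod (2 ^ m)) :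
    a ∈ AddSubgroup.zmultiples b ∨ b ∈ AddSubgroup.zmultiples a := by
  have hp : ∀ c : ZMod (2 ^ m), ∃ s, addOrderOf c = 2 ^ s := by
    intro c
    have h1 : addOrderOf c ∣ 2 ^ m := by
      have := addOrderOf_dvd_natCard c
      rwa [Nat.card_zmod] at this
    obtain ⟨s, _, hs⟩ := (Nat.dvd_prime_pow Nat.prime_two).1 h1
    exact ⟨s, hs⟩
  obtain ⟨s, hs⟩ := hp a
  obtain ⟨t, ht⟩ := hp b
  rcases le_total s t with h | h
  · left
    refine zm_key a b ?_
    rw [← addOrderOf_dvd_iff_nsmul_eq_zero, hs, ht]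
    exact pow_dvd_pow 2 h
  · right
    refine zm_key b a ?_
    rw [← addOrderOf_dvd_iff_nsmul_eq_zero, hs, ht]
    exact pow_dvd_pow 2 h

/-- an element of the subgroup generated by `b` is eliminated by a multiple of `b` -/
theorem exists_fd {M : ℕ} [NeZero M] {a b : ℕ}
    (h : (a : ZMod M) ∈ AddSubgroup.zmultiples (b : ZMod M)) : fd M a b < M := by
  obtain ⟨k, hk⟩ := AddSubgroup.mem_zmultiples_iff.1 h
  refine fd_lt (ZMod.val_lt (-(k : ZMod M))) ?_
  push_cast
  rw [ZMod.natCast_zmod_val, ← hk, zsmul_eq_mul]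
  ring

/-! ### Solutions -/

section sol

variable {M N : ℕ}

/-- left hand side minus right hand side -/
noncomputable def ev (M N : ℕ) (r : List ℕ) (y : ℕ → ZMod M) : ZMod M :=
  ∑ i ∈ Finset.range N, (r.getD i 0 : ZMod M) * y i - (r.getD N 0 : ZMod M)

/-- `y` is a solution -/
def Sys (M N : ℕ) (rows : List (List ℕ)) (y : ℕ → ZMod M) : Prop := ∀ r ∈ rows, ev M N r y = 0

/-- the coefficient of the unknown `i` is zero -/
def Zr (M : ℕ) (r : List ℕ) (i : ℕ) : Prop := (r.getD i 0 : ZMod M) = 0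

theorem cmb_getD (r : List ℕ) (d : ℕ) (p : List ℕ) {i : ℕ} (hi : i ≤ N) :
    (cmb M N r d p).getD i 0 = md M (r.getD i 0 + d * p.getD i 0) := by
  unfold cmb
  rw [List.getD_eq_getElem _ _ (by rw [List.length_map, List.length_range]; omega)]
  simp

theorem cmb_cast (r : List ℕ) (d : ℕ) (p : List ℕ) {i : ℕ} (hi : i ≤ N) :
    ((cmb M N r d p).getD i 0 : ZMod M) = (r.getD i 0 : ZMod M) + d * (p.getD i 0 : ZMod M) := by
  rw [cmb_getD r d p hi, md_cast]
  push_cast
  ring

theorem ev_cmb (r : List ℕ) (d : ℕ) (p : List ℕ) (y : ℕ → ZMod M) :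
    ev M N (cmb M N r d p) y = ev M N r y + d * ev M N p y := by
  unfold ev
  rw [cmb_cast r d p le_rfl, mul_sub, Finset.mul_sum]
  have h1 : ∑ i ∈ Finset.range N, ((cmb M N r d p).getD i 0 : ZMod M) * y i =
      ∑ i ∈ Finset.range N, (r.getD i 0 : ZMod M) * y i +
      ∑ i ∈ Finset.range N, (d : ZMod M) * ((p.getD i 0 : ZMod M) * y i) := by
    rw [← Finset.sum_add_distrib]
    refine Finset.sum_congr rfl fun i hi => ?_
    rw [cmb_cast r d p (Finset.mem_range.1 hi).le]
    ring
  rw [h1]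
  ring

theorem ev_nil (y : ℕ → ZMod M) : ev M N [] y = 0 := by
  unfold ev
  simp

theorem zr_nil (i : ℕ) : Zr M [] i := by
  unfold Zr
  simp

theorem zr_cmb {r p : List ℕ} {d i : ℕ} (hi : i ≤ N) (hr : Zr M r i) (hp : Zr M p i) :
    Zr M (cmb M N r d p) i := by
  unfold Zr at hr hp ⊢
  rw [cmb_cast r d p hi, hr, hp]
  ring

/-- changing an unknown -/
theorem ev_update {r : List ℕ} {y : ℕ → ZMod M} {j : ℕ} (hj : j < N) (c : ZMod M) :
    ev M N r (Function.update y j (y j + c)) = ev M N r y + (r.getD j 0 : ZMod M) * c := by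
  unfold ev
  have h1 : ∑ i ∈ Finset.range N, (r.getD i 0 : ZMod M) * Function.update y j (y j + c) i =
      ∑ i ∈ Finset.range N, ((r.getD i 0 : ZMod M) * y i +
        if i = j then (r.getD j 0 : ZMod M) * c else 0) := by
    refine Finset.sum_congr rfl fun i _ => ?_
    by_cases h : i = j
    · subst h
      rw [Function.update_self, if_pos rfl, mul_add]
    · rw [Function.update_of_ne h, if_neg h, add_zero]
  rw [h1, Finset.sum_add_distrib, Finset.sum_ite_eq' , if_pos (Finset.mem_range.2 hj)]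
  ring

/-- the invariant of the inner loop -/
theorem stp_inv {m : ℕ} {j : ℕ} (hj : j < N) (rows : List (List ℕ)) :
    ∀ s : List ℕ × List (List ℕ), (∀ r ∈ s.2, Zr (2 ^ m) r j) →
      (∀ r ∈ (rows.foldl (stp (2 ^ m) N j) s).2, Zr (2 ^ m) r j) ∧
      (∀ y, Sys (2 ^ m) N ((rows.foldl (stp (2 ^ m) N j) s).1 ::
        (rows.foldl (stp (2 ^ m) N j) s).2) y ↔
        Sys (2 ^ m) N (s.1 :: s.2) y ∧ Sys (2 ^ m) N rows y) ∧
      (∀ i < j, Zr (2 ^ m) s.1 i → (∀ r ∈ s.2, Zr (2 ^ m) r i) → (∀ r ∈ rows, Zr (2 ^ m) r i) →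
        Zr (2 ^ m) (rows.foldl (stp (2 ^ m) N j) s).1 i ∧
        ∀ r ∈ (rows.foldl (stp (2 ^ m) N j) s).2, Zr (2 ^ m) r i) := by
  have : NeZero (2 ^ m) := ⟨pow_ne_zero m (by norm_num)⟩
  induction rows with
  | nil =>
    intro s hs
    refine ⟨hs, fun y => ⟨fun h => ⟨h, fun r hr => absurd hr (List.not_mem_nil)⟩, fun h => h.1⟩,
      fun i _ h1 h2 _ => ⟨h1, h2⟩⟩
  | cons r rows ih =>
    intro s hs
    simp only [List.foldl_cons]
    -- one step
    have key : (∀ o ∈ (stp (2 ^ m) N j s r).2, Zr (2 ^ m) o j) ∧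
        (∀ y, Sys (2 ^ m) N ((stp (2 ^ m) N j s r).1 :: (stp (2 ^ m) N j s r).2) y ↔
          Sys (2 ^ m) N (s.1 :: s.2) y ∧ ev (2 ^ m) N r y = 0) ∧
        (∀ i < j, Zr (2 ^ m) s.1 i → (∀ r ∈ s.2, Zr (2 ^ m) r i) → Zr (2 ^ m) r i →
          Zr (2 ^ m) (stp (2 ^ m) N j s r).1 i ∧ ∀ o ∈ (stp (2 ^ m) N j s r).2, Zr (2 ^ m) o i) := by
      unfold stp
      by_cases h : fd (2 ^ m) (r.getD j 0) (s.1.getD j 0) < 2 ^ m
      · rw [decide_eq_true h, cond_true]
        refine ⟨?_, fun y => ?_, fun i hi h1 h2 h3 => ⟨h1, ?_⟩⟩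
        · intro o ho
          rcases List.mem_cons.1 ho with rfl | ho
          · unfold Zr
            rw [cmb_cast _ _ _ hj.le]
            have := fd_spec h
            push_cast at this
            exact this
          · exact hs o ho
        · unfold Sys
          simp only [List.forall_mem_cons, ev_cmb]
          constructor
          · rintro ⟨h1, h2, h3⟩
            rw [h1, mul_zero, add_zero] at h2
            exact ⟨⟨h1, h3⟩, h2⟩
          · rintro ⟨⟨h1, h3⟩, h2⟩
            refine ⟨h1, ?_, h3⟩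
            rw [h1, h2]
            ring
        · intro o ho
          rcases List.mem_cons.1 ho with rfl | ho
          · exact zr_cmb (by omega) h3 h1
          · exact h2 o ho
      · rw [decide_eq_false h, cond_false]
        have h' : fd (2 ^ m) (s.1.getD j 0) (r.getD j 0) < 2 ^ m := by
          rcases zm_total (m := m) (r.getD j 0 : ZMod (2 ^ m)) (s.1.getD j 0 : ZMod (2 ^ m)) with
            h1 | h1
          · exact absurd (exists_fd h1) h
          · exact exists_fd h1
        refine ⟨?_, fun y => ?_, fun i hi h1 h2 h3 => ⟨h3, ?_⟩⟩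
        · intro o ho
          rcases List.mem_cons.1 ho with rfl | ho
          · unfold Zr
            rw [cmb_cast _ _ _ hj.le]
            have := fd_spec h'
            push_cast at this
            exact this
          · exact hs o ho
        · unfold Sys
          simp only [List.forall_mem_cons, ev_cmb]
          constructor
          · rintro ⟨h1, h2, h3⟩
            rw [h1, mul_zero, add_zero] at h2
            exact ⟨⟨h2, h3⟩, h1⟩
          · rintro ⟨⟨h1, h3⟩, h2⟩
            refine ⟨h2, ?_, h3⟩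
            rw [h1, h2]
            ring
        · intro o ho
          rcases List.mem_cons.1 ho with rfl | ho
          · exact zr_cmb (by omega) h1 h3
          · exact h2 o ho
    obtain ⟨k1, k2, k3⟩ := key
    obtain ⟨i1, i2, i3⟩ := ih _ k1
    refine ⟨i1, fun y => ?_, fun i hi h1 h2 h3 => ?_⟩
    · rw [i2, k2]
      unfold Sys
      simp only [List.forall_mem_cons]
      tauto
    · obtain ⟨q1, q2⟩ := k3 i hi h1 h2 (h3 r List.mem_cons_self)
      exact i3 i hi q1 q2 (fun o ho => h3 o (List.mem_cons_of_mem _ ho))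

/-- elimination of one unknown -/
theorem cst_inv {m : ℕ} {j : ℕ} (hj : j < N) {rows : List (List ℕ)}
    (h : ∀ r ∈ rows, ∀ i < j, Zr (2 ^ m) r i) :
    (∀ r ∈ cst (2 ^ m) N rows j, ∀ i < j + 1, Zr (2 ^ m) r i) ∧
    ((∃ y, Sys (2 ^ m) N (cst (2 ^ m) N rows j) y) ↔ ∃ y, Sys (2 ^ m) N rows y) := by
  have : NeZero (2 ^ m) := ⟨pow_ne_zero m (by norm_num)⟩
  obtain ⟨i1, i2, i3⟩ := stp_inv (m := m) hj rows ([], [])
    (fun r hr => absurd hr (List.not_mem_nil))
  unfold cst
  set s := rows.foldl (stp (2 ^ m) N j) ([], []) with hs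
  have hm : ∀ r, r ∈ ((List.range (2 ^ m + 1)).filter (fun d =>
      decide (md (2 ^ m) (d * s.1.getD j 0) = 0))).map (fun d => cmb (2 ^ m) N [] d s.1) ++ s.2 ↔
      (∃ d : ℕ, d ≤ 2 ^ m ∧ ((d : ZMod (2 ^ m)) * (s.1.getD j 0 : ZMod (2 ^ m)) = 0) ∧
        cmb (2 ^ m) N [] d s.1 = r) ∨ r ∈ s.2 := by
    intro r
    simp only [List.mem_append, List.mem_map, List.mem_filter, List.mem_range, decide_eq_true_eq,
      md_zero_iff, Nat.cast_mul, Nat.lt_succ_iff, and_assoc]
  have hz : ∀ i < j, Zr (2 ^ m) s.1 i ∧ ∀ r ∈ s.2, Zr (2 ^ m) r i := fun i hi =>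
    i3 i hi (zr_nil i) (fun r hr => absurd hr (List.not_mem_nil)) (fun r hr => h r hr i hi)
  constructor
  · intro r hr i hi
    rcases (hm r).1 hr with ⟨d, hd, hd2, rfl⟩ | hr
    · rcases Nat.lt_succ_iff_lt_or_eq.1 hi with hi | rfl
      · exact zr_cmb (by omega) (zr_nil i) (hz i hi).1
      · unfold Zr
        rw [cmb_cast _ _ _ hj.le, hd2]
        simp
    · rcases Nat.lt_succ_iff_lt_or_eq.1 hi with hi | rfl
      · exact (hz i hi).2 r hr
      · exact i1 r hr
  · constructor
    · rintro ⟨y, hy⟩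
      have h1 : ∀ d : ℕ, d ≤ 2 ^ m → (d : ZMod (2 ^ m)) * (s.1.getD j 0 : ZMod (2 ^ m)) = 0 →
          (d : ZMod (2 ^ m)) * ev (2 ^ m) N s.1 y = 0 := by
        intro d hd hd2
        have := hy _ ((hm _).2 (Or.inl ⟨d, hd, hd2, rfl⟩))
        rw [ev_cmb, ev_nil, zero_add] at this
        exact this
      have h2 : ev (2 ^ m) N s.1 y ∈ AddSubgroup.zmultiples (s.1.getD j 0 : ZMod (2 ^ m)) := by
        refine zm_key _ _ ?_
        rw [nsmul_eq_mul]
        refine h1 _ ?_ ?_
        · have h3 := addOrderOf_dvd_natCard (s.1.getD j 0 : ZMod (2 ^ m))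
          rw [Nat.card_zmod] at h3
          exact Nat.le_of_dvd (Nat.pos_of_ne_zero (NeZero.ne _)) h3
        · rw [← nsmul_eq_mul, addOrderOf_nsmul_eq_zero]
      obtain ⟨k, hk⟩ := AddSubgroup.mem_zmultiples_iff.1 h2
      refine ⟨Function.update y j (y j + (-(k : ZMod (2 ^ m)))), ?_⟩
      have h4 : Sys (2 ^ m) N (s.1 :: s.2) (Function.update y j (y j + (-(k : ZMod (2 ^ m))))) := by
        unfold Sys
        simp only [List.forall_mem_cons]
        refine ⟨?_, fun r hr => ?_⟩
        · rw [ev_update hj, ← hk, zsmul_eq_mul]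
          ring
        · have h5 : (r.getD j 0 : ZMod (2 ^ m)) = 0 := i1 r hr
          rw [ev_update hj, hy r ((hm r).2 (Or.inr hr)), h5]
          ring
      exact ((i2 _).1 h4).2
    · rintro ⟨y, hy⟩
      refine ⟨y, fun r hr => ?_⟩
      have h1 : Sys (2 ^ m) N (s.1 :: s.2) y := by
        rw [i2]
        refine ⟨?_, hy⟩
        unfold Sys
        simp [ev_nil]
      rcases (hm r).1 hr with ⟨d, hd, hd2, rfl⟩ | hr
      · rw [ev_cmb, ev_nil, h1 _ List.mem_cons_self, mul_zero, add_zero]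
      · exact h1 r (List.mem_cons_of_mem _ hr)

theorem slv_aux {m : ℕ} (rows : List (List ℕ)) (j : ℕ) (hj : j ≤ N) :
    (∀ r ∈ (List.range j).foldl (cst (2 ^ m) N) rows, ∀ i < j, Zr (2 ^ m) r i) ∧
    ((∃ y, Sys (2 ^ m) N ((List.range j).foldl (cst (2 ^ m) N) rows) y) ↔
      ∃ y, Sys (2 ^ m) N rows y) := by
  induction j with
  | zero => exact ⟨fun r _ i hi => absurd hi (Nat.not_lt_zero i), Iff.rfl⟩
  | succ j ih =>
    obtain ⟨h1, h2⟩ := ih (by omega)
    rw [List.range_succ, List.foldl_append, List.foldl_cons, List.foldl_nil]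
    obtain ⟨h3, h4⟩ := cst_inv (m := m) (N := N) (j := j) (by omega) h1
    exact ⟨h3, h4.trans h2⟩

/-- the algorithm decides solvability -/
theorem slv_iff {m : ℕ} (rows : List (List ℕ)) :
    slv (2 ^ m) N rows = true ↔ ∃ y, Sys (2 ^ m) N rows y := by
  obtain ⟨h1, h2⟩ := slv_aux (m := m) (N := N) rows N le_rfl
  rw [← h2]
  unfold slv
  rw [List.all_eq_true]
  have h3 : ∀ r ∈ (List.range N).foldl (cst (2 ^ m) N) rows, ∀ y : ℕ → ZMod (2 ^ m),
      ev (2 ^ m) N r y = -(r.getD N 0 : ZMod (2 ^ m)) := by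
    intro r hr y
    unfold ev
    rw [Finset.sum_eq_zero, zero_sub]
    intro i hi
    have h5 : (r.getD i 0 : ZMod (2 ^ m)) = 0 := h1 r hr i (Finset.mem_range.1 hi)
    rw [h5, zero_mul]
  constructor
  · intro h
    refine ⟨0, fun r hr => ?_⟩
    rw [h3 r hr, neg_eq_zero, ← md_zero_iff]
    exact of_decide_eq_true (h r hr)
  · rintro ⟨y, hy⟩ r hr
    have h4 := hy r hr
    rw [h3 r hr, neg_eq_zero, ← md_zero_iff] at h4
    exact decide_eq_true h4

end sol

end Pool.Agent.CLA.P
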