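import Pool.Agent.CPT.P.Iso

/-!
# The query

The types of the vertices of a graph are read off from the numbers of their leaves. The query says
that a certain system of linear equations over `ZMod (2 ^ m)`, with one unknown for every
vertex, has a solution; `m` is the number of the vertices with exactly four leaves (but at most
the logarithm of the number of vertices).
-/

set_option autoImplicit false

namespace Pool.Agent.CLA.P

open Finset Classical
open Pool.Agent.CPT.P (dg dg_iso)

section defs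

variable {W : Type} [Fintype W] (G : SimpleGraph W)

/-- the number of leaves at a vertex -/
noncomputable def nl (v : W) : ℕ := (univ.filter (fun u => G.Adj v u ∧ dg G u = 1)).card

/-- atoms: no leaves, degree at least two -/
def tA (v : W) : Prop := nl G v = 0 ∧ 2 ≤ dg G v

/-- edge states: one leaf, degree at least two -/
def tS (v : W) : Prop := nl G v = 1 ∧ 2 ≤ dg G v

/-- even places: two leaves -/
def tE (v : W) : Prop := nl G v = 2

/-- odd places: three leaves -/
def tO (v : W) : Prop := nl G v = 3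

/-- the number of markers: vertices with four leaves -/
noncomputable def mk : ℕ := (univ.filter (fun v => nl G v = 4)).card

/-- the number of places -/
noncomputable def pk : ℕ := (univ.filter (fun v => tE G v ∨ tO G v)).card

/-- the exponent of the modulus -/
noncomputable def me : ℕ := min (mk G) (Nat.log 2 (Fintype.card W))

/-- the system over `ZMod (2 ^ m)` has a solution -/
def QS (m : ℕ) : Prop := ∃ y : W → ZMod (2 ^ m),
  (∀ x, tA G x → ∑ q ∈ univ.filter (fun q => G.Adj x q ∧ tS G q), y q =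
    ∑ p ∈ univ.filter (fun p => G.Adj x p ∧ (tE G p ∨ tO G p)), y p) ∧
  ∑ p ∈ univ.filter (fun p => tE G p), y p - ∑ p ∈ univ.filter (fun p => tO G p), y p =
    ((2 ^ m / 2 : ℕ) : ZMod (2 ^ m))

end defs

section iso

variable {W W' : Type} [Fintype W] [Fintype W'] {G : SimpleGraph W} {H : SimpleGraph W'}

lemma card_filter_equiv (e : W ≃ W') {p : W → Prop} {p' : W' → Prop} [DecidablePred p]
    [DecidablePred p'] (h : ∀ x, p x ↔ p' (e x)) :
    (univ.filter p).card = (univ.filter p').card := by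
  refine Finset.card_bij (fun u _ => e u) ?_ (fun _ _ _ _ h => e.injective h) ?_
  · intro u hu
    simp only [mem_filter, mem_univ, true_and] at hu ⊢
    exact (h u).1 hu
  · intro u hu
    simp only [mem_filter, mem_univ, true_and] at hu
    refine ⟨e.symm u, ?_, by simp⟩
    simp only [mem_filter, mem_univ, true_and]
    rw [h]
    simpa using hu

lemma sum_filter_equiv {M : Type} [AddCommMonoid M] (e : W ≃ W') {p : W → Prop} {p' : W' → Prop}
    [DecidablePred p] [DecidablePred p'] (h : ∀ x, p x ↔ p' (e x)) (f : W' → M) :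
    ∑ x ∈ univ.filter p, f (e x) = ∑ x ∈ univ.filter p', f x := by
  rw [sum_filter, sum_filter, ← Equiv.sum_comp e]
  refine Finset.sum_congr rfl fun x _ => ?_
  simp only [h x]

lemma nl_iso (e : G ≃g H) (v : W) : nl H (e v) = nl G v := by
  unfold nl
  symm
  have h1 : ∀ u, (G.Adj v u ∧ dg G u = 1) ↔ (H.Adj (e v) (e.toEquiv u) ∧ dg H (e.toEquiv u) = 1) := by
    intro u
    show _ ↔ (H.Adj (e v) (e u) ∧ dg H (e u) = 1)
    rw [dg_iso, e.map_adj_iff]
  exact card_filter_equiv e.toEquiv h1

lemma tA_iso (e : G ≃g H) (v : W) : tA G v ↔ tA H (e v) := by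
  unfold tA
  rw [nl_iso, dg_iso]

lemma tS_iso (e : G ≃g H) (v : W) : tS G v ↔ tS H (e v) := by
  unfold tS
  rw [nl_iso, dg_iso]

lemma tE_iso (e : G ≃g H) (v : W) : tE G v ↔ tE H (e v) := by
  unfold tE
  rw [nl_iso]

lemma tO_iso (e : G ≃g H) (v : W) : tO G v ↔ tO H (e v) := by
  unfold tO
  rw [nl_iso]

lemma mk_iso (e : G ≃g H) : mk G = mk H := by
  unfold mk
  have h1 : ∀ u, nl G u = 4 ↔ nl H (e.toEquiv u) = 4 := by
    intro u
    show _ ↔ nl H (e u) = 4
    rw [nl_iso]
  exact card_filter_equiv e.toEquiv h1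

lemma pk_iso (e : G ≃g H) : pk G = pk H := by
  unfold pk
  have h1 : ∀ u, (tE G u ∨ tO G u) ↔ (tE H (e.toEquiv u) ∨ tO H (e.toEquiv u)) := by
    intro u
    show _ ↔ (tE H (e u) ∨ tO H (e u))
    rw [tE_iso e, tO_iso e]
  exact card_filter_equiv e.toEquiv h1

lemma me_iso (e : G ≃g H) : me G = me H := by
  unfold me
  rw [mk_iso e, Fintype.card_congr e.toEquiv]

lemma qs_iso (e : G ≃g H) {m : ℕ} (h : QS H m) : QS G m := by
  obtain ⟨y, h1, h2⟩ := h
  have k1 : ∀ x q, (G.Adj x q ∧ tS G q) ↔ (H.Adj (e x) (e.toEquiv q) ∧ tS H (e.toEquiv q)) := by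
    intro x q
    show _ ↔ (H.Adj (e x) (e q) ∧ tS H (e q))
    rw [tS_iso e, e.map_adj_iff]
  have k2 : ∀ x q, (G.Adj x q ∧ (tE G q ∨ tO G q)) ↔
      (H.Adj (e x) (e.toEquiv q) ∧ (tE H (e.toEquiv q) ∨ tO H (e.toEquiv q))) := by
    intro x q
    show _ ↔ (H.Adj (e x) (e q) ∧ (tE H (e q) ∨ tO H (e q)))
    rw [tE_iso e, tO_iso e, e.map_adj_iff]
  refine ⟨fun x => y (e.toEquiv x), fun x hx => ?_, ?_⟩
  · have h3 := h1 (e x) ((tA_iso e x).1 hx)
    have a1 := sum_filter_equiv (p := fun q => G.Adj x q ∧ tS G q)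
      (p' := fun q => H.Adj (e x) q ∧ tS H q) e.toEquiv (k1 x) y
    have a2 := sum_filter_equiv (p := fun q => G.Adj x q ∧ (tE G q ∨ tO G q))
      (p' := fun q => H.Adj (e x) q ∧ (tE H q ∨ tO H q)) e.toEquiv (k2 x) y
    rw [a1, a2]
    exact h3
  · have a1 := sum_filter_equiv (p := fun q => tE G q) (p' := fun q => tE H q) e.toEquiv
      (fun q => tE_iso e q) y
    have a2 := sum_filter_equiv (p := fun q => tO G q) (p' := fun q => tO H q) e.toEquiv
      (fun q => tO_iso e q) y
    rw [a1, a2]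
    exact h2

end iso

/-- the query, for all graphs: `G` is finite and the system has a solution -/
def Qr (V : Type) (G : SimpleGraph V) : Prop := ∃ _ : Fintype V, QS G (me G)

theorem qr_iso (V W : Type) (G : SimpleGraph V) (H : SimpleGraph W) (h : Qr V G) :
    Nonempty (G ≃g H) → Qr W H := by
  rintro ⟨e⟩
  obtain ⟨i, h⟩ := h
  refine ⟨Fintype.ofEquiv V e.toEquiv, ?_⟩
  let _ := Fintype.ofEquiv V e.toEquiv
  rw [← me_iso e]
  exact qs_iso e.symm h

theorem qr_iff {V : Type} [i : Fintype V] (G : SimpleGraph V) : Qr V G ↔ QS G (me G) := by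
  constructor
  · rintro ⟨j, h⟩
    rwa [Subsingleton.elim j i] at h
  · intro h
    exact ⟨i, h⟩

end Pool.Agent.CLA.P
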