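import Pool.Agent.CLA.P.Alg
import Pool.Agent.CLA.P.Qry
import Pool.Agent.CPT.P.Corr

/-!
# The algorithm on adjacency matrices
-/

set_option autoImplicit false

namespace Pool.Agent.CLA.P

open Pool.Agent.PebAlg (side adj deg code)

/-- the number of leaves -/
def nlB (w : List Bool) (v : ℕ) : ℕ :=
  ((List.range (side w)).filter (fun u => adj w v u && decide (deg w u = 1))).length

/-- atoms -/
def tAB (w : List Bool) (v : ℕ) : Bool := decide (nlB w v = 0) && decide (2 ≤ deg w v)

/-- edge states -/
def tSB (w : List Bool) (v : ℕ) : Bool := decide (nlB w v = 1) && decide (2 ≤ deg w v)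

/-- even places -/
def tEB (w : List Bool) (v : ℕ) : Bool := decide (nlB w v = 2)

/-- odd places -/
def tOB (w : List Bool) (v : ℕ) : Bool := decide (nlB w v = 3)

/-- the number of markers -/
def mkB (w : List Bool) : ℕ := ((List.range (side w)).filter (fun v => decide (nlB w v = 4))).length

/-- the number of places -/
def pkB (w : List Bool) : ℕ := ((List.range (side w)).filter (fun v => tEB w v || tOB w v)).length

/-- doubling, as long as the result is at most `N` -/
def dbl (N : ℕ) (m : ℕ) (_ : ℕ) : ℕ := bif decide (2 * m ≤ N) then 2 * m else m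

/-- the modulus -/
def mdl (w : List Bool) : ℕ := (List.range (mkB w)).foldl (dbl (side w)) 1

/-- the coefficient of the unknown `i` in the equation of `x` -/
def cfA (w : List Bool) (x i : ℕ) : ℕ :=
  bif tAB w x && adj w x i then
    (bif tSB w i then 1 else bif tEB w i || tOB w i then mdl w - 1 else 0) else 0

/-- the equation of the vertex `x` -/
def rowA (w : List Bool) (x : ℕ) : List ℕ := (List.range (side w)).map (cfA w x) ++ [0]

/-- the coefficient of the unknown `i` in the last equation -/
def cfF (w : List Bool) (i : ℕ) : ℕ := bif tEB w i then 1 else bif tOB w i then mdl w - 1 else 0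

/-- the last equation -/
def rowF (w : List Bool) : List ℕ := (List.range (side w)).map (cfF w) ++ [mdl w / 2]

/-- the system -/
def rws (w : List Bool) : List (List ℕ) := rowF w :: (List.range (side w)).map (rowA w)

/-- the decision algorithm -/
def dec (w : List Bool) : List Bool := [slv (mdl w) (side w) (rws w)]

/-- the invariant -/
def inva (w : List Bool) : List Bool :=
  slv (mdl w) (side w) (rws w) :: ((List.range (mkB w)).map (fun _ => true) ++
    (false :: (List.range (pkB w)).map (fun _ => true)))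

/-! ### Correctness -/

open Finset Classical
open Pool.Agent.CPT.P (dg gcode side_gcode adj_gcode deg_gcode)

lemma cnt_range (n : ℕ) (p : ℕ → Bool) (P : Fin n → Prop) [DecidablePred P]
    (h : ∀ i : Fin n, p i = true ↔ P i) :
    ((List.range n).filter p).length = (univ.filter P).card := by
  rw [← List.toFinset_card_of_nodup (List.nodup_range.filter _)]
  symm
  refine Finset.card_bij (fun i _ => i.val) ?_ (fun _ _ _ _ h => Fin.ext h) ?_
  · intro i hi
    simp only [mem_filter, mem_univ, true_and] at hi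
    rw [List.mem_toFinset, List.mem_filter, List.mem_range]
    exact ⟨i.isLt, (h i).2 hi⟩
  · intro x hx
    rw [List.mem_toFinset, List.mem_filter, List.mem_range] at hx
    refine ⟨⟨x, hx.1⟩, ?_, rfl⟩
    simp only [mem_filter, mem_univ, true_and]
    exact (h ⟨x, hx.1⟩).1 hx.2

lemma dbl_foldl (N c : ℕ) : (List.range c).foldl (dbl N) 1 = 2 ^ (min c (Nat.log 2 N)) := by
  induction c with
  | zero => simp
  | succ c ih =>
    rw [List.range_succ, List.foldl_append, List.foldl_cons, List.foldl_nil, ih]
    unfold dbl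
    by_cases h : c < Nat.log 2 N
    · rw [min_eq_left h.le, min_eq_left (Nat.succ_le_of_lt h)]
      have h1 : 2 * 2 ^ c ≤ N := by
        have h2 : N ≠ 0 := by
          rintro rfl
          simp at h
        have := Nat.pow_le_of_le_log h2 (Nat.succ_le_of_lt h)
        rw [pow_succ] at this
        omega
      rw [decide_eq_true h1, cond_true, pow_succ, mul_comm]
    · rw [min_eq_right (by omega), min_eq_right (by omega)]
      have h1 : ¬ 2 * 2 ^ Nat.log 2 N ≤ N := by
        have := Nat.lt_pow_succ_log_self (b := 2) (by norm_num) N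
        rw [pow_succ] at this
        omega
      rw [decide_eq_false h1, cond_false]

section graph

variable {n : ℕ} (G : SimpleGraph (Fin n))

lemma nlB_gcode (v : Fin n) : nlB (gcode G) v = nl G v := by
  unfold nlB nl
  rw [side_gcode]
  refine cnt_range n _ _ fun u => ?_
  rw [Bool.and_eq_true, adj_gcode, decide_eq_true_eq, deg_gcode]

lemma tAB_gcode (v : Fin n) : tAB (gcode G) v = true ↔ tA G v := by
  unfold tAB tA
  rw [Bool.and_eq_true, decide_eq_true_eq, decide_eq_true_eq, nlB_gcode, deg_gcode]

lemma tSB_gcode (v : Fin n) : tSB (gcode G) v = true ↔ tS G v := by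
  unfold tSB tS
  rw [Bool.and_eq_true, decide_eq_true_eq, decide_eq_true_eq, nlB_gcode, deg_gcode]

lemma tEB_gcode (v : Fin n) : tEB (gcode G) v = true ↔ tE G v := by
  unfold tEB tE
  rw [decide_eq_true_eq, nlB_gcode]

lemma tOB_gcode (v : Fin n) : tOB (gcode G) v = true ↔ tO G v := by
  unfold tOB tO
  rw [decide_eq_true_eq, nlB_gcode]

lemma mkB_gcode : mkB (gcode G) = mk G := by
  unfold mkB mk
  rw [side_gcode]
  refine cnt_range n _ _ fun u => ?_
  rw [decide_eq_true_eq, nlB_gcode]

lemma pkB_gcode : pkB (gcode G) = pk G := by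
  unfold pkB pk
  rw [side_gcode]
  refine cnt_range n _ _ fun u => ?_
  rw [Bool.or_eq_true, tEB_gcode, tOB_gcode]

lemma mdl_gcode : mdl (gcode G) = 2 ^ me G := by
  unfold mdl me
  rw [dbl_foldl, mkB_gcode, side_gcode, Fintype.card_fin]

lemma map_getD_lt {α : Type} (f : ℕ → α) (l : List α) (d : α) {n i : ℕ} (h : i < n) :
    ((List.range n).map f ++ l).getD i d = f i := by
  rw [List.getD_append _ _ _ _ (by simpa using h), List.getD_eq_getElem _ _ (by simpa using h)]
  simp

lemma map_getD_eq {α : Type} (f : ℕ → α) (a d : α) {n : ℕ} :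
    ((List.range n).map f ++ [a]).getD n d = a := by
  rw [List.getD_append_right _ _ _ _ (by simp)]
  simp

variable {G}

/-- a sum with coefficients `1`, `-1` and `0` -/
lemma sum_coef {M : ℕ} [NeZero M] {P Q : Fin n → Prop} [DecidablePred P] [DecidablePred Q] (hPQ : ∀ i, P i → ¬ Q i) (c : ℕ → ℕ)
    (h1 : ∀ i : Fin n, P i → c i = 1) (h2 : ∀ i : Fin n, Q i → c i = M - 1)
    (h3 : ∀ i : Fin n, ¬ P i → ¬ Q i → c i = 0) (y : ℕ → ZMod M) :
    ∑ i ∈ Finset.range n, (c i : ZMod M) * y i =
      ∑ i ∈ univ.filter P, y i - ∑ i ∈ univ.filter Q, y i := by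
  have hM : ((M - 1 : ℕ) : ZMod M) = -1 := by
    rw [Nat.cast_sub (Nat.pos_of_ne_zero (NeZero.ne M))]
    simp
  rw [Finset.sum_range, sum_filter, sum_filter, ← Finset.sum_sub_distrib]
  refine Finset.sum_congr rfl fun i _ => ?_
  by_cases hP : P i
  · rw [if_pos hP, if_neg (hPQ i hP), h1 i hP]
    simp
  · by_cases hQ : Q i
    · rw [if_neg hP, if_pos hQ, h2 i hQ, hM]
      ring
    · rw [if_neg hP, if_neg hQ, h3 i hP hQ]
      simp

lemma tS_not {v : Fin n} (h : tS G v) : ¬ (tE G v ∨ tO G v) := by
  unfold tS at h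
  unfold tE tO
  omega

/-- the equations of the algorithm -/
lemma ev_rowA (x : Fin n) (y : ℕ → ZMod (2 ^ me G)) :
    ev (2 ^ me G) n (rowA (gcode G) x) y = if tA G x then
      ∑ q ∈ univ.filter (fun q : Fin n => G.Adj x q ∧ tS G q), y q -
      ∑ p ∈ univ.filter (fun p : Fin n => G.Adj x p ∧ (tE G p ∨ tO G p)), y p else 0 := by
  have : NeZero (2 ^ me G) := ⟨pow_ne_zero _ (by norm_num)⟩
  unfold ev rowA
  rw [side_gcode, map_getD_eq]
  have h0 : ∀ i ∈ Finset.range n, ((((List.range n).map (cfA (gcode G) x) ++ [0]).getD i 0 : ℕ) :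
      ZMod (2 ^ me G)) * y i = (cfA (gcode G) x i : ZMod (2 ^ me G)) * y i := by
    intro i hi
    rw [map_getD_lt _ _ _ (Finset.mem_range.1 hi)]
  rw [Finset.sum_congr rfl h0, Nat.cast_zero, sub_zero]
  by_cases hx : tA G x
  · rw [if_pos hx]
    refine sum_coef (P := fun q : Fin n => G.Adj x q ∧ tS G q)
      (Q := fun p : Fin n => G.Adj x p ∧ (tE G p ∨ tO G p)) (fun i h h' => tS_not h.2 h'.2)
      (cfA (gcode G) x) ?_ ?_ ?_ y
    · rintro i ⟨h1, h2⟩
      unfold cfA
      rw [(tAB_gcode G x).2 hx, (adj_gcode G x i).2 h1, (tSB_gcode G i).2 h2]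
      rfl
    · rintro i ⟨h1, h2⟩
      have h3 : tSB (gcode G) i = false := by
        rw [← Bool.not_eq_true, tSB_gcode]
        exact fun h => tS_not h h2
      have h4 : (tEB (gcode G) i || tOB (gcode G) i) = true := by
        rw [Bool.or_eq_true, tEB_gcode, tOB_gcode]
        exact h2
      unfold cfA
      rw [(tAB_gcode G x).2 hx, (adj_gcode G x i).2 h1, h3, h4, mdl_gcode]
      rfl
    · intro i h1 h2
      unfold cfA
      by_cases h : G.Adj x i
      · have h3 : tSB (gcode G) i = false := by
          rw [← Bool.not_eq_true, tSB_gcode]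
          exact fun h' => h1 ⟨h, h'⟩
        have h4 : (tEB (gcode G) i || tOB (gcode G) i) = false := by
          rw [← Bool.not_eq_true, Bool.or_eq_true, tEB_gcode, tOB_gcode]
          exact fun h' => h2 ⟨h, h'⟩
        rw [h3, h4, cond_false, cond_false]
        simp
      · have h3 : adj (gcode G) x i = false := by
          rw [← Bool.not_eq_true, adj_gcode]
          exact h
        rw [h3, Bool.and_false]
        rfl
  · rw [if_neg hx]
    refine Finset.sum_eq_zero fun i _ => ?_
    have h3 : tAB (gcode G) x = false := by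
      rw [← Bool.not_eq_true, tAB_gcode]
      exact hx
    unfold cfA
    rw [h3, Bool.false_and, cond_false]
    simp

lemma ev_rowF (y : ℕ → ZMod (2 ^ me G)) :
    ev (2 ^ me G) n (rowF (gcode G)) y =
      (∑ p ∈ univ.filter (fun p : Fin n => tE G p), y p -
      ∑ p ∈ univ.filter (fun p : Fin n => tO G p), y p) - ((2 ^ me G / 2 : ℕ) : ZMod _) := by
  have : NeZero (2 ^ me G) := ⟨pow_ne_zero _ (by norm_num)⟩
  unfold ev rowF
  rw [side_gcode, map_getD_eq, mdl_gcode]
  congr 1
  have h0 : ∀ i ∈ Finset.range n, ((((List.range n).map (cfF (gcode G)) ++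
      [2 ^ me G / 2]).getD i 0 : ℕ) : ZMod (2 ^ me G)) * y i =
      (cfF (gcode G) i : ZMod (2 ^ me G)) * y i := by
    intro i hi
    rw [map_getD_lt _ _ _ (Finset.mem_range.1 hi)]
  rw [Finset.sum_congr rfl h0]
  refine sum_coef (P := fun p : Fin n => tE G p) (Q := fun p : Fin n => tO G p) ?_
    (cfF (gcode G)) ?_ ?_ ?_ y
  · intro i h h'
    unfold tE at h
    unfold tO at h'
    omega
  · intro i h
    unfold cfF
    rw [(tEB_gcode G i).2 h]
    rfl
  · intro i h
    have h3 : tEB (gcode G) i = false := by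
      rw [← Bool.not_eq_true, tEB_gcode]
      intro h'
      unfold tE at h'
      unfold tO at h
      omega
    unfold cfF
    rw [h3, (tOB_gcode G i).2 h, mdl_gcode]
    rfl
  · intro i h h'
    have h3 : tEB (gcode G) i = false := by
      rw [← Bool.not_eq_true, tEB_gcode]
      exact h
    have h4 : tOB (gcode G) i = false := by
      rw [← Bool.not_eq_true, tOB_gcode]
      exact h'
    unfold cfF
    rw [h3, h4]
    rfl

/-- the algorithm decides the query -/
theorem slv_gcode : slv (mdl (gcode G)) (side (gcode G)) (rws (gcode G)) = true ↔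
    QS G (me G) := by
  rw [mdl_gcode, side_gcode, slv_iff]
  have h1 : ∀ y : ℕ → ZMod (2 ^ me G), Sys (2 ^ me G) n (rws (gcode G)) y ↔
      ((∀ x, tA G x → ∑ q ∈ univ.filter (fun q : Fin n => G.Adj x q ∧ tS G q), y q =
        ∑ p ∈ univ.filter (fun p : Fin n => G.Adj x p ∧ (tE G p ∨ tO G p)), y p) ∧
      ∑ p ∈ univ.filter (fun p : Fin n => tE G p), y p -
        ∑ p ∈ univ.filter (fun p : Fin n => tO G p), y p = ((2 ^ me G / 2 : ℕ) : ZMod _)) := by
    intro y
    unfold Sys rws
    rw [List.forall_mem_cons, side_gcode, ev_rowF, sub_eq_zero, and_comm]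
    refine and_congr_left fun _ => ?_
    simp only [List.forall_mem_map, List.mem_range]
    constructor
    · intro h x hx
      have h2 := h x.val x.isLt
      rw [ev_rowA, if_pos hx, sub_eq_zero] at h2
      exact h2
    · intro h x hx
      have h2 := ev_rowA (G := G) ⟨x, hx⟩ y
      rw [h2]
      by_cases hA : tA G ⟨x, hx⟩
      · rw [if_pos hA, sub_eq_zero]
        exact h _ hA
      · rw [if_neg hA]
  simp only [h1]
  constructor
  · rintro ⟨y, h⟩
    exact ⟨fun i => y i, h⟩
  · rintro ⟨y, h⟩
    refine ⟨fun i => if hi : i < n then y ⟨i, hi⟩ else 0, ?_⟩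
    simpa using h

theorem dec_iff : dec (gcode G) = [true] ↔ Qr (Fin n) G := by
  unfold dec
  rw [List.cons.injEq, qr_iff, ← slv_gcode]
  simp

theorem inva_gcode : inva (gcode G) = decide (Qr (Fin n) G) ::
    (List.replicate (mk G) true ++ (false :: List.replicate (pk G) true)) := by
  unfold inva
  rw [mkB_gcode, pkB_gcode]
  have h1 : slv (mdl (gcode G)) (side (gcode G)) (rws (gcode G)) = decide (Qr (Fin n) G) := by
    rw [Bool.eq_iff_iff, slv_gcode, decide_eq_true_eq, qr_iff]
  rw [h1]
  simp [List.map_const']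

end graph

end Pool.Agent.CLA.P
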