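import Pool.Agent.CLA.At
import Pool.Agent.CLA.Gd
import Pool.Agent.CLA.Siz
import Pool.Agent.CPT.P.Inst
import Pool.Agent.CLA.P.Qry

/-!
# The graphs `XG l n τ` and the query
-/

set_option autoImplicit false
set_option linter.unusedVariables false

namespace Pool.Agent.CLA.P

open Finset Classical
open Pool.Agent.CPT
open Pool.Agent.CPT.P (dg)

variable {l n : ℕ}

/-! ### Degrees -/

section degrees

variable {τ : Vx l → Rn n}

private lemma Ins_dg_one {u w : {x : Al l n // InU τ x}} (h : ∀ z : Al l n,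
    adj u.1 z ↔ z = w.1) : dg (XG l n τ) u = 1 := by
  unfold dg
  rw [Finset.card_eq_one]
  refine ⟨w, ?_⟩
  ext z
  rw [mem_filter, mem_singleton, Subtype.ext_iff]
  constructor
  · rintro ⟨-, h1⟩
    exact (h z.1).1 h1
  · intro h1
    exact ⟨mem_univ _, (h z.1).2 h1⟩

private lemma Ins_dg_two {u w w' : {x : Al l n // InU τ x}} (h : adj u.1 w.1) (h' : adj u.1 w'.1)
    (hne : w ≠ w') : 2 ≤ dg (XG l n τ) u := by
  unfold dg
  have h1 : 1 < (univ.filter (fun z => (XG l n τ).Adj u z)).card :=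
    Finset.one_lt_card.2 ⟨w, mem_filter.2 ⟨mem_univ _, h⟩, w', mem_filter.2 ⟨mem_univ _, h'⟩, hne⟩
  omega

private lemma Ins_dg_lf {y : Es l n} (h : IsEs y) :
    dg (XG l n τ) ⟨.lf y, h⟩ = 1 := by
  refine Ins_dg_one (w := ⟨.est y, h⟩) ?_
  intro z
  cases z <;> simp [adj]

private lemma Ins_dg_pf {v : Vx l} {j : Fin 3} (h : InU τ (.pf v j)) :
    dg (XG l n τ) ⟨.pf v j, h⟩ = 1 := by
  refine Ins_dg_one (w := ⟨.pv v, trivial⟩) ?_
  intro z
  cases z <;> simp [adj]

private lemma Ins_dg_mf {i : Fin n} {j : Fin 4} (h : InU τ (.mf i j)) :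
    dg (XG l n τ) ⟨.mf i j, h⟩ = 1 := by
  refine Ins_dg_one (w := ⟨.mr i, trivial⟩) ?_
  intro z
  cases z <;> simp [adj]

private lemma Ins_dg_pv (v : Vx l) : 2 ≤ dg (XG l n τ) ⟨.pv v, trivial⟩ := by
  refine Ins_dg_two (w := ⟨.pf v 0, Or.inl (by decide)⟩) (w' := ⟨.pf v 1, Or.inl (by decide)⟩)
    rfl rfl ?_
  intro h
  have := congrArg Subtype.val h
  simp at this

private lemma Ins_dg_mr (i : Fin n) : 2 ≤ dg (XG l n τ) ⟨.mr i, trivial⟩ := by
  refine Ins_dg_two (w := ⟨.mf i 0, trivial⟩) (w' := ⟨.mf i 1, trivial⟩) rfl rfl ?_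
  intro h
  have := congrArg Subtype.val h
  simp at this

/-- the restriction of an atom to an edge -/
noncomputable def rst (x : At l n) (e : Ed l) : Es l n :=
  mkE e (fun C => if se C e then x.a C else 0) (x.w e)

lemma rst_isEs {x : At l n} {e : Ed l} (h : ie e x.v) : IsEs (rst x e) := by
  refine ⟨⟨x.v, h⟩, fun C hC => ?_⟩
  change (if se C e then x.a C else 0) = 0
  exact if_neg hC

lemma rst_st {x : At l n} {e : Ed l} (h : ie e x.v) : St x (rst x e) := by
  refine ⟨h, fun C hC => ?_, rfl⟩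
  change (if se C e then x.a C else 0) = x.a C
  exact if_pos hC

lemma eq_rst {x : At l n} {y : Es l n} (h : St x y) (hy : IsEs y) : y = rst x y.e := by
  refine Es.ext rfl ?_ h.2.2
  funext C
  change y.a C = if se C y.e then x.a C else 0
  by_cases hC : se C y.e
  · rw [if_pos hC, h.2.1 C hC]
  · rw [if_neg hC, hy.2 C hC]

private lemma Ins_dg_atm (hl : 2 ≤ l) {x : At l n} (h : IsAt τ x) :
    2 ≤ dg (XG l n τ) ⟨.atm x, h⟩ := by
  obtain ⟨e, -, he⟩ := Pool.Agent.CPT.P.edge_at hl x.v 0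
  refine Ins_dg_two (w := ⟨.pv x.v, trivial⟩) (w' := ⟨.est (rst x e), rst_isEs he⟩) rfl
    (rst_st he) ?_
  intro h
  have := congrArg Subtype.val h
  simp at this

private lemma Ins_dg_est {x : At l n} {y : Es l n} (hx : IsAt τ x) (hy : IsEs y) (h : St x y) :
    2 ≤ dg (XG l n τ) ⟨.est y, hy⟩ := by
  refine Ins_dg_two (w := ⟨.atm x, hx⟩) (w' := ⟨.lf y, hy⟩) h rfl ?_
  intro h
  have := congrArg Subtype.val h
  simp at this

/-! ### Numbers of leaves -/

private lemma Ins_nl_zero {u : {x : Al l n // InU τ x}} (h : ∀ z : {x : Al l n // InU τ x},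
    adj u.1 z.1 → 2 ≤ dg (XG l n τ) z) : nl (XG l n τ) u = 0 := by
  unfold nl
  rw [Finset.card_eq_zero, Finset.filter_eq_empty_iff]
  rintro z - ⟨h1, h2⟩
  have := h z h1
  omega

private lemma Ins_nl_atm (hl : 2 ≤ l) {x : At l n} (h : IsAt τ x) :
    nl (XG l n τ) ⟨.atm x, h⟩ = 0 := by
  refine Ins_nl_zero ?_
  rintro ⟨z, hz⟩ hadj
  cases z with
  | est y => exact Ins_dg_est h hz hadj
  | pv v => exact Ins_dg_pv v
  | atm x => exact hadj.elim
  | lf y => exact hadj.elim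
  | pf v j => exact hadj.elim
  | mr i => exact hadj.elim
  | mf i j => exact hadj.elim

private lemma Ins_nl_pf {v : Vx l} {j : Fin 3} (h : InU τ (.pf v j)) :
    nl (XG l n τ) ⟨.pf v j, h⟩ = 0 := by
  refine Ins_nl_zero ?_
  rintro ⟨z, hz⟩ hadj
  cases z with
  | est y => exact hadj.elim
  | pv v => exact Ins_dg_pv v
  | atm x => exact hadj.elim
  | lf y => exact hadj.elim
  | pf v j => exact hadj.elim
  | mr i => exact hadj.elim
  | mf i j => exact hadj.elim

private lemma Ins_nl_mf {i : Fin n} {j : Fin 4} (h : InU τ (.mf i j)) :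
    nl (XG l n τ) ⟨.mf i j, h⟩ = 0 := by
  refine Ins_nl_zero ?_
  rintro ⟨z, hz⟩ hadj
  cases z with
  | est y => exact hadj.elim
  | pv v => exact hadj.elim
  | atm x => exact hadj.elim
  | lf y => exact hadj.elim
  | pf v j => exact hadj.elim
  | mr i => exact Ins_dg_mr i
  | mf i j => exact hadj.elim

private lemma Ins_nl_est (hl : 2 ≤ l) {y : Es l n} (h : IsEs y) :
    nl (XG l n τ) ⟨.est y, h⟩ = 1 := by
  unfold nl
  rw [Finset.card_eq_one]
  refine ⟨⟨.lf y, h⟩, ?_⟩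
  ext ⟨z, hz⟩
  rw [mem_filter, mem_singleton]
  constructor
  · rintro ⟨-, h1, h2⟩
    cases z with
    | atm x =>
      have := Ins_dg_atm hl hz
      omega
    | lf y' =>
      have h3 : y = y' := h1
      subst h3
      rfl
    | est y => exact h1.elim
    | pv v => exact h1.elim
    | pf v j => exact h1.elim
    | mr i => exact h1.elim
    | mf i j => exact h1.elim
  · intro h1
    rw [h1]
    exact ⟨mem_univ _, rfl, Ins_dg_lf h⟩

private lemma Ins_nl_lf {y : Es l n} (h : IsEs y) : nl (XG l n τ) ⟨.lf y, h⟩ ≤ 1 := by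
  have h1 := Ins_dg_lf (τ := τ) h
  unfold dg at h1
  unfold nl
  rw [← h1]
  refine Finset.card_le_card fun z hz => ?_
  rw [mem_filter] at hz ⊢
  exact ⟨hz.1, hz.2.1⟩

private lemma Ins_nl_pv (hl : 2 ≤ l) (v : Vx l) : nl (XG l n τ) ⟨.pv v, trivial⟩ =
    (univ.filter (fun j : Fin 3 => j.val < 2 ∨ sgv v = -1)).card := by
  unfold nl
  symm
  refine Finset.card_bij (fun j hj => (⟨.pf v j, (mem_filter.1 hj).2⟩ : {x : Al l n // InU τ x}))
    ?_ ?_ ?_
  · intro j hj
    rw [mem_filter]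
    exact ⟨mem_univ _, rfl, Ins_dg_pf _⟩
  · intro j hj j' hj' h
    have := congrArg Subtype.val h
    simp only [Al.pf.injEq, true_and] at this
    exact this
  · rintro ⟨z, hz⟩ h
    rw [mem_filter] at h
    obtain ⟨-, h1, h2⟩ := h
    cases z with
    | atm x =>
      have := Ins_dg_atm hl hz
      omega
    | pf v' j =>
      have h3 : v = v' := h1
      subst h3
      exact ⟨j, mem_filter.2 ⟨mem_univ _, hz⟩, rfl⟩
    | lf y => exact h1.elim
    | est y => exact h1.elim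
    | pv v => exact h1.elim
    | mr i => exact h1.elim
    | mf i j => exact h1.elim

private lemma Ins_sgv (v : Vx l) : sgv v = 1 ∨ sgv v = -1 := by
  unfold sgv
  exact neg_one_pow_eq_or ℤ _

private lemma Ins_nl_even (hl : 2 ≤ l) {v : Vx l} (hv : sgv v = 1) :
    nl (XG l n τ) ⟨.pv v, trivial⟩ = 2 := by
  rw [Ins_nl_pv hl, hv]
  decide

private lemma Ins_nl_odd (hl : 2 ≤ l) {v : Vx l} (hv : sgv v = -1) :
    nl (XG l n τ) ⟨.pv v, trivial⟩ = 3 := by
  rw [Ins_nl_pv hl, hv]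
  decide

private lemma Ins_nl_mr (i : Fin n) : nl (XG l n τ) ⟨.mr i, trivial⟩ = 4 := by
  unfold nl
  have h4 : (univ : Finset (Fin 4)).card = 4 := by simp
  rw [← h4]
  symm
  refine Finset.card_bij (fun j _ => (⟨.mf i j, trivial⟩ : {x : Al l n // InU τ x})) ?_ ?_ ?_
  · intro j hj
    rw [mem_filter]
    exact ⟨mem_univ _, rfl, Ins_dg_mf _⟩
  · intro j hj j' hj' h
    have := congrArg Subtype.val h
    simp only [Al.mf.injEq, true_and] at this
    exact this
  · rintro ⟨z, hz⟩ h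
    rw [mem_filter] at h
    obtain ⟨-, h1, h2⟩ := h
    cases z with
    | mf i' j =>
      have h3 : i = i' := h1
      subst h3
      exact ⟨j, mem_univ _, rfl⟩
    | atm x => exact h1.elim
    | pf v' j => exact h1.elim
    | lf y => exact h1.elim
    | est y => exact h1.elim
    | pv v => exact h1.elim
    | mr i => exact h1.elim

/-! ### Types -/

private lemma Ins_tA (hl : 2 ≤ l) {u : {x : Al l n // InU τ x}} (h : tA (XG l n τ) u) :
    ∃ (x : At l n) (hx : IsAt τ x), u = ⟨.atm x, hx⟩ := by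
  obtain ⟨u, hu⟩ := u
  cases u with
  | atm x => exact ⟨x, hu, rfl⟩
  | est y =>
    have h1 := h.1
    have h2 : nl (XG l n τ) ⟨.est y, hu⟩ = 1 := Ins_nl_est hl hu
    omega
  | lf y =>
    have h1 := h.2
    have h2 : dg (XG l n τ) ⟨.lf y, hu⟩ = 1 := Ins_dg_lf hu
    omega
  | pv v =>
    have h1 := h.1
    rcases Ins_sgv v with hv | hv
    · rw [Ins_nl_even hl hv] at h1
      omega
    · rw [Ins_nl_odd hl hv] at h1
      omega
  | pf v j =>
    have h1 := h.2
    rw [Ins_dg_pf] at h1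
    omega
  | mr i =>
    have h1 := h.1
    rw [Ins_nl_mr] at h1
    omega
  | mf i j =>
    have h1 := h.2
    rw [Ins_dg_mf] at h1
    omega

private lemma Ins_tA_atm (hl : 2 ≤ l) {x : At l n} (hx : IsAt τ x) :
    tA (XG l n τ) ⟨.atm x, hx⟩ := ⟨Ins_nl_atm hl hx, Ins_dg_atm hl hx⟩

/-- the vertices with two or three leaves -/
private lemma Ins_tEO (hl : 2 ≤ l) {u : {x : Al l n // InU τ x}} (h : 2 ≤ nl (XG l n τ) u)
    (h' : nl (XG l n τ) u ≤ 3) : ∃ v : Vx l, u = ⟨.pv v, trivial⟩ := by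
  obtain ⟨u, hu⟩ := u
  cases u with
  | pv v => exact ⟨v, rfl⟩
  | atm x =>
    have h2 : nl (XG l n τ) ⟨.atm x, hu⟩ = 0 := Ins_nl_atm hl hu
    omega
  | est y =>
    have h2 : nl (XG l n τ) ⟨.est y, hu⟩ = 1 := Ins_nl_est hl hu
    omega
  | lf y =>
    have := Ins_nl_lf (τ := τ) (y := y) hu
    omega
  | pf v j =>
    rw [Ins_nl_pf] at h
    omega
  | mr i =>
    rw [Ins_nl_mr] at h'
    omega
  | mf i j =>
    rw [Ins_nl_mf] at h
    omega

private lemma Ins_tE_iff (hl : 2 ≤ l) (u : {x : Al l n // InU τ x}) :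
    tE (XG l n τ) u ↔ ∃ v : Vx l, sgv v = 1 ∧ u = ⟨.pv v, trivial⟩ := by
  constructor
  · intro h
    obtain ⟨v, rfl⟩ := Ins_tEO hl (u := u) (by rw [h]) (by rw [h]; norm_num)
    rcases Ins_sgv v with hv | hv
    · exact ⟨v, hv, rfl⟩
    · have h1 : nl (XG l n τ) ⟨.pv v, trivial⟩ = 2 := h
      rw [Ins_nl_odd hl hv] at h1
      omega
  · rintro ⟨v, hv, rfl⟩
    exact Ins_nl_even hl hv

private lemma Ins_tO_iff (hl : 2 ≤ l) (u : {x : Al l n // InU τ x}) :
    tO (XG l n τ) u ↔ ∃ v : Vx l, sgv v = -1 ∧ u = ⟨.pv v, trivial⟩ := by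
  constructor
  · intro h
    obtain ⟨v, rfl⟩ := Ins_tEO hl (u := u) (by rw [h]; norm_num) (by rw [h])
    rcases Ins_sgv v with hv | hv
    · have h1 : nl (XG l n τ) ⟨.pv v, trivial⟩ = 3 := h
      rw [Ins_nl_even hl hv] at h1
      omega
    · exact ⟨v, hv, rfl⟩
  · rintro ⟨v, hv, rfl⟩
    exact Ins_nl_odd hl hv

private lemma Ins_EO_iff (hl : 2 ≤ l) (u : {x : Al l n // InU τ x}) :
    (tE (XG l n τ) u ∨ tO (XG l n τ) u) ↔ ∃ v : Vx l, u = ⟨.pv v, trivial⟩ := by
  rw [Ins_tE_iff hl, Ins_tO_iff hl]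
  constructor
  · rintro (⟨v, -, h⟩ | ⟨v, -, h⟩)
    · exact ⟨v, h⟩
    · exact ⟨v, h⟩
  · rintro ⟨v, h⟩
    rcases Ins_sgv v with hv | hv
    · exact Or.inl ⟨v, hv, h⟩
    · exact Or.inr ⟨v, hv, h⟩

private lemma Ins_pv_inj {u v : Vx l}
    (h : (⟨.pv u, trivial⟩ : {x : Al l n // InU τ x}) = ⟨.pv v, trivial⟩) : u = v := by
  have := congrArg Subtype.val h
  simpa using this

/-! ### Sums -/

/-- the sum over the edge states of an atom -/
private lemma Ins_sum_est (hl : 2 ≤ l) {M : Type} [AddCommMonoid M] {x : At l n} (hx : IsAt τ x)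
    (y : {x : Al l n // InU τ x} → M) :
    ∑ q ∈ univ.filter (fun q => (XG l n τ).Adj ⟨.atm x, hx⟩ q ∧ tS (XG l n τ) q), y q =
      ∑ e ∈ (univ.filter (fun e => ie e x.v)).attach,
        y ⟨.est (rst x e.1), rst_isEs (mem_filter.1 e.2).2⟩ := by
  symm
  refine Finset.sum_bij (fun e _ => (⟨.est (rst x e.1), rst_isEs (mem_filter.1 e.2).2⟩ :
    {x : Al l n // InU τ x})) ?_ ?_ ?_ ?_
  · rintro ⟨e, he⟩ -
    have he' := (mem_filter.1 he).2
    rw [mem_filter]
    exact ⟨mem_univ _, rst_st he', Ins_nl_est hl _, Ins_dg_est hx _ (rst_st he')⟩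
  · rintro ⟨e, he⟩ - ⟨e', he'⟩ - h
    have h1 := congrArg Subtype.val h
    simp only [Al.est.injEq] at h1
    have h2 := congrArg Es.e h1
    exact Subtype.ext h2
  · rintro ⟨z, hz⟩ h
    rw [mem_filter] at h
    obtain ⟨-, h1, h2⟩ := h
    cases z with
    | est q =>
      refine ⟨⟨q.e, mem_filter.2 ⟨mem_univ _, h1.1⟩⟩, mem_attach _ _, ?_⟩
      apply Subtype.ext
      simp only [Al.est.injEq]
      exact (eq_rst h1 hz).symm
    | pv v =>
      have h3 := h2.1
      rcases Ins_sgv v with hv | hv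
      · rw [Ins_nl_even hl hv] at h3
        omega
      · rw [Ins_nl_odd hl hv] at h3
        omega
    | atm x => exact h1.elim
    | pf v' j => exact h1.elim
    | lf y => exact h1.elim
    | mr i => exact h1.elim
    | mf i j => exact h1.elim
  · intro e _
    rfl

/-- the sum over the places of an atom -/
private lemma Ins_sum_pv (hl : 2 ≤ l) {M : Type} [AddCommMonoid M] {x : At l n} (hx : IsAt τ x)
    (y : {x : Al l n // InU τ x} → M) :
    ∑ p ∈ univ.filter (fun p => (XG l n τ).Adj ⟨.atm x, hx⟩ p ∧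
      (tE (XG l n τ) p ∨ tO (XG l n τ) p)), y p = y ⟨.pv x.v, trivial⟩ := by
  have h1 : univ.filter (fun p => (XG l n τ).Adj ⟨.atm x, hx⟩ p ∧
      (tE (XG l n τ) p ∨ tO (XG l n τ) p)) = {⟨.pv x.v, trivial⟩} := by
    ext p
    rw [mem_filter, mem_singleton, Ins_EO_iff hl]
    constructor
    · rintro ⟨-, h2, v, rfl⟩
      have h3 : x.v = v := h2
      subst h3
      rfl
    · rintro rfl
      exact ⟨mem_univ _, rfl, x.v, rfl⟩
  rw [h1, Finset.sum_singleton]

/-- the alternating sum over the places -/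
private lemma Ins_alt (hl : 2 ≤ l) {M : Type} [AddCommGroup M] (y : {x : Al l n // InU τ x} → M) :
    ∑ p ∈ univ.filter (fun p => tE (XG l n τ) p), y p -
      ∑ p ∈ univ.filter (fun p => tO (XG l n τ) p), y p =
      ∑ v : Vx l, sgv v • y ⟨.pv v, trivial⟩ := by
  have key : ∀ (s : ℤ) (P : {x : Al l n // InU τ x} → Prop),
      (∀ u, P u ↔ ∃ v : Vx l, sgv v = s ∧ u = ⟨.pv v, trivial⟩) →
      ∑ p ∈ univ.filter P, y p = ∑ v ∈ univ.filter (fun v : Vx l => sgv v = s),
        y ⟨.pv v, trivial⟩ := by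
    intro s P hP
    symm
    refine Finset.sum_bij (fun v _ => (⟨.pv v, trivial⟩ : {x : Al l n // InU τ x})) ?_ ?_ ?_ ?_
    · intro v hv
      rw [mem_filter, hP]
      exact ⟨mem_univ _, v, (mem_filter.1 hv).2, rfl⟩
    · intro u _ v _ h
      exact Ins_pv_inj h
    · intro u hu
      rw [mem_filter, hP] at hu
      obtain ⟨-, v, hv, rfl⟩ := hu
      exact ⟨v, mem_filter.2 ⟨mem_univ _, hv⟩, rfl⟩
    · intro v _
      rfl
  rw [key 1 _ (Ins_tE_iff hl), key (-1) _ (Ins_tO_iff hl)]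
  rw [← Finset.sum_filter_add_sum_filter_not univ (fun v : Vx l => sgv v = 1)
    (fun v => sgv v • y ⟨.pv v, trivial⟩)]
  have e1 : ∑ v ∈ univ.filter (fun v : Vx l => sgv v = 1), sgv v • y ⟨.pv v, trivial⟩ =
      ∑ v ∈ univ.filter (fun v : Vx l => sgv v = 1), y ⟨.pv v, trivial⟩ := by
    refine Finset.sum_congr rfl fun v hv => ?_
    rw [(mem_filter.1 hv).2, one_smul]
  have e2 : univ.filter (fun v : Vx l => ¬ sgv v = 1) = univ.filter (fun v : Vx l => sgv v = -1) := by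
    refine Finset.filter_congr fun v _ => ?_
    rcases Ins_sgv v with hv | hv
    · rw [hv]
      norm_num
    · rw [hv]
      norm_num
  have e3 : ∑ v ∈ univ.filter (fun v : Vx l => sgv v = -1), sgv v • y ⟨.pv v, trivial⟩ =
      - ∑ v ∈ univ.filter (fun v : Vx l => sgv v = -1), y ⟨.pv v, trivial⟩ := by
    rw [← Finset.sum_neg_distrib]
    refine Finset.sum_congr rfl fun v hv => ?_
    rw [(mem_filter.1 hv).2, neg_smul, one_smul]
  rw [e1, e2, e3, sub_eq_add_neg]

end degrees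

/-- the number of markers -/
theorem mk_XG (hl : 2 ≤ l) (τ : Vx l → Rn n) : mk (XG l n τ) = n := by
  unfold mk
  have hn : (univ : Finset (Fin n)).card = n := by simp
  conv_rhs => rw [← hn]
  symm
  refine Finset.card_bij (fun i _ => (⟨.mr i, trivial⟩ : {x : Al l n // InU τ x})) ?_ ?_ ?_
  · intro i _
    rw [mem_filter]
    exact ⟨mem_univ _, Ins_nl_mr i⟩
  · intro i _ j _ h
    have := congrArg Subtype.val h
    simpa using this
  · rintro ⟨u, hu⟩ h
    rw [mem_filter] at h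
    obtain ⟨-, h⟩ := h
    cases u with
    | mr i => exact ⟨i, mem_univ _, rfl⟩
    | pv v =>
      rcases Ins_sgv v with hv | hv
      · rw [Ins_nl_even hl hv] at h
        omega
      · rw [Ins_nl_odd hl hv] at h
        omega
    | atm x =>
      have h2 : nl (XG l n τ) ⟨.atm x, hu⟩ = 0 := Ins_nl_atm hl hu
      omega
    | est y =>
      have h2 : nl (XG l n τ) ⟨.est y, hu⟩ = 1 := Ins_nl_est hl hu
      omega
    | lf y =>
      have := Ins_nl_lf (τ := τ) (y := y) hu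
      omega
    | pf v j =>
      rw [Ins_nl_pf] at h
      omega
    | mf i j =>
      rw [Ins_nl_mf] at h
      omega

/-- the number of places -/
theorem pk_XG (hl : 2 ≤ l) (τ : Vx l → Rn n) : pk (XG l n τ) = l ^ 3 := by
  unfold pk
  have hn : (univ : Finset (Vx l)).card = l ^ 3 := by
    rw [Finset.card_univ, Fintype.card_fun, Fintype.card_fin, Fintype.card_fin]
  rw [← hn]
  symm
  refine Finset.card_bij (fun v _ => (⟨.pv v, trivial⟩ : {x : Al l n // InU τ x})) ?_ ?_ ?_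
  · intro v _
    rw [mem_filter, Ins_EO_iff hl]
    exact ⟨mem_univ _, v, rfl⟩
  · intro u _ v _ h
    exact Ins_pv_inj h
  · intro u hu
    rw [mem_filter, Ins_EO_iff hl] at hu
    obtain ⟨-, v, rfl⟩ := hu
    exact ⟨v, mem_univ _, rfl⟩

/-- the exponent of the modulus -/
theorem me_XG (hl : 2 ≤ l) (τ : Vx l → Rn n) : me (XG l n τ) = n := by
  unfold me
  rw [mk_XG hl]
  have h1 := le_size (n := n) hl τ
  have h2 : n ≤ Nat.log 2 (Fintype.card {x : Al l n // InU τ x}) :=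
    Nat.le_log_of_pow_le (by norm_num) h1
  exact min_eq_left h2

private theorem Ins_half (hn : 1 ≤ n) : ((2 ^ n / 2 : ℕ) : ZMod (2 ^ n)) = 2 ^ (n - 1) := by
  have h1 : 2 ^ n / 2 = 2 ^ (n - 1) := by
    obtain ⟨m, rfl⟩ : ∃ m, n = m + 1 := ⟨n - 1, by omega⟩
    rw [pow_succ, Nat.mul_div_cancel _ (by norm_num)]
    simp
  rw [h1]
  push_cast
  rfl

private theorem Ins_half_ne (hn : 1 ≤ n) : ((2 ^ n / 2 : ℕ) : ZMod (2 ^ n)) ≠ 0 := by
  intro h
  rw [ZMod.natCast_eq_zero_iff] at h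
  obtain ⟨m, rfl⟩ : ∃ m, n = m + 1 := ⟨n - 1, by omega⟩
  rw [pow_succ, Nat.mul_div_cancel _ (by norm_num)] at h
  have h1 := Nat.le_of_dvd (by positivity) h
  have h2 : 0 < 2 ^ m := by positivity
  omega

/-- `y_q = w` for the edge state `q = (e, a, w)`, `y_p = sgv v * τ v` for the place `v` -/
theorem qs_tw (hl : 2 ≤ l) (hn : 1 ≤ n) (v0 : Vx l) : QS (XG l n (tw n v0)) n := by
  refine ⟨fun u => match u.1 with
    | .est q => q.w
    | .pv v => sgv v • tw n v0 v
    | _ => 0, ?_, ?_⟩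
  · intro x hx
    obtain ⟨x, hx', rfl⟩ := Ins_tA hl hx
    rw [Ins_sum_est hl, Ins_sum_pv hl]
    change ∑ e ∈ (univ.filter (fun e => ie e x.v)).attach, x.w e.1 = sgv x.v • tw n v0 x.v
    rw [Finset.sum_attach (univ.filter (fun e => ie e x.v)) (fun e => x.w e)]
    rw [← hx'.2.2]
    unfold dv
    rw [smul_smul, sgv_mul_self, one_smul]
  · rw [Ins_alt hl, Ins_half hn]
    change ∑ v : Vx l, sgv v • sgv v • tw n v0 v = 2 ^ (n - 1)
    simp only [sgv_smul_smul]
    unfold tw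
    rw [Finset.sum_pi_single']
    simp

/-- take the atom `(v, 0, 0)` at every place -/
theorem not_qs_zero (hl : 2 ≤ l) (hn : 1 ≤ n) : ¬ QS (XG l n (0 : Vx l → Rn n)) n := by
  rintro ⟨y, h1, h2⟩
  rw [Ins_alt hl] at h2
  have hat : ∀ v : Vx l, IsAt (0 : Vx l → Rn n) (mkA v 0 0) := fun v =>
    ⟨fun _ _ => rfl, fun _ _ => rfl, dv_zero v⟩
  let Y : Ed l → ZMod (2 ^ n) := fun e => if h : ∃ u, ie e u then
    y ⟨.est (mkE e 0 0), h, fun _ _ => rfl⟩ else 0
  have h3 : ∀ v : Vx l, sgv v • y ⟨.pv v, trivial⟩ = dv Y v := by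
    intro v
    have h4 := h1 ⟨.atm (mkA v 0 0), hat v⟩ (Ins_tA_atm hl (hat v))
    rw [Ins_sum_est hl, Ins_sum_pv hl] at h4
    have h5 : y ⟨.pv v, trivial⟩ = ∑ e ∈ univ.filter (fun e => ie e v), Y e := by
      refine h4.symm.trans ?_
      rw [← Finset.sum_attach (univ.filter (fun e => ie e v)) Y]
      refine Finset.sum_congr rfl fun e _ => ?_
      have he : ie e.1 v := (mem_filter.1 e.2).2
      have e1 : Y e.1 = y ⟨.est (mkE e.1 0 0), ⟨v, he⟩, fun _ _ => rfl⟩ := dif_pos ⟨v, he⟩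
      rw [e1]
      congr 1
      apply Subtype.ext
      simp only [Al.est.injEq]
      refine Es.ext rfl ?_ rfl
      funext C
      change (if se C e.1 then (0 : Rn n × Rn n) else 0) = 0
      rw [ite_self]
    rw [h5]
    rfl
  simp only [h3] at h2
  rw [sum_dv] at h2
  exact Ins_half_ne hn h2.symm

theorem qr_tw (hl : 2 ≤ l) (hn : 1 ≤ n) (v0 : Vx l) : Qr _ (XG l n (tw n v0)) := by
  rw [qr_iff, me_XG hl]
  exact qs_tw hl hn v0

theorem not_qr_zero (hl : 2 ≤ l) (hn : 1 ≤ n) : ¬ Qr _ (XG l n (0 : Vx l → Rn n)) := by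
  rw [qr_iff, me_XG hl]
  exact not_qs_zero hl hn

end Pool.Agent.CLA.P
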