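import Pool.Agent.CLA.P.Cor
import Pool.Agent.CPT.P.Time

/-!
# The algorithm runs in polynomial time
-/

set_option autoImplicit false

namespace Pool.Agent.CLA.P

open Pool.Agent.PebAlg (side adj deg code)
open Pool.Agent.Lib.PT

/-! ### Sizes -/

theorem sz_list_le {γ : Type} [Enc γ] {l : List γ} {K : ℕ} (h : ∀ x ∈ l, sz x ≤ K) :
    sz l ≤ l.length * (K + 1) + 1 := by
  induction l with
  | nil => simp
  | cons a l ih =>
    rw [sz_list_cons, List.length_cons, Nat.succ_mul]
    have h1 := h a List.mem_cons_self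
    have h2 := ih (fun x hx => h x (List.mem_cons_of_mem _ hx))
    omega

theorem md_lt {M : ℕ} (hM : 1 ≤ M) (x : ℕ) : md M x < M := by
  rw [md_eq]
  exact Nat.mod_lt _ hM

/-- the bound for the size of a combination of rows -/
def cb (M N : ℕ) : ℕ := (N + 1) * (2 * M + 2) + 1

theorem sz_cmb {M N : ℕ} (hM : 1 ≤ M) (r : List ℕ) (d : ℕ) (p : List ℕ) :
    sz (cmb M N r d p) ≤ cb M N := by
  have h1 : ∀ x ∈ cmb M N r d p, sz x ≤ 2 * M + 1 := by
    intro x hx
    unfold cmb at hx
    rw [List.mem_map] at hx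
    obtain ⟨i, -, rfl⟩ := hx
    rw [sz_nat]
    have := md_lt hM (r.getD i 0 + d * p.getD i 0)
    omega
  refine (sz_list_le h1).trans (le_of_eq ?_)
  unfold cb cmb
  simp

theorem sz_pos {γ : Type} [Enc γ] (a : γ) : 1 ≤ sz a := T.size_pos _

theorem sz_stp {M N j : ℕ} (hM : 1 ≤ M) (s : List ℕ × List (List ℕ)) (r : List ℕ) :
    sz (stp M N j s r) ≤ sz s + (sz r + cb M N + 2) := by
  obtain ⟨p, o⟩ := s
  have hp := sz_pos p
  unfold stp
  cases decide (fd M (r.getD j 0) (p.getD j 0) < M)
  · rw [cond_false, sz_pair, sz_pair, sz_list_cons]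
    have := sz_cmb (N := N) hM p (fd M (p.getD j 0) (r.getD j 0)) r
    show sz r + (sz (cmb M N p (fd M (p.getD j 0) (r.getD j 0)) r) + sz o + 1) + 1 ≤ _
    omega
  · rw [cond_true, sz_pair, sz_pair, sz_list_cons]
    have := sz_cmb (N := N) hM r (fd M (r.getD j 0) (p.getD j 0)) p
    show sz p + (sz (cmb M N r (fd M (r.getD j 0) (p.getD j 0)) p) + sz o + 1) + 1 ≤ _
    omega

theorem stp_fold {M N j K : ℕ} (hM : 1 ≤ M) (hK : cb M N ≤ K) (rows : List (List ℕ)) :
    ∀ s : List ℕ × List (List ℕ), (∀ r ∈ rows, sz r ≤ K) → sz s.1 ≤ K → (∀ r ∈ s.2, sz r ≤ K) →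
      sz (rows.foldl (stp M N j) s).1 ≤ K ∧
      (∀ r ∈ (rows.foldl (stp M N j) s).2, sz r ≤ K) ∧
      (rows.foldl (stp M N j) s).2.length = s.2.length + rows.length := by
  induction rows with
  | nil => intro s _ h1 h2; exact ⟨h1, h2, by simp⟩
  | cons r rows ih =>
    intro s h h1 h2
    simp only [List.foldl_cons]
    have hr := h r List.mem_cons_self
    have key : sz (stp M N j s r).1 ≤ K ∧ (∀ o ∈ (stp M N j s r).2, sz o ≤ K) ∧
        (stp M N j s r).2.length = s.2.length + 1 := by
      unfold stp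
      cases decide (fd M (r.getD j 0) (s.1.getD j 0) < M)
      · rw [cond_false]
        refine ⟨hr, fun o ho => ?_, by simp⟩
        rcases List.mem_cons.1 ho with rfl | ho
        · exact (sz_cmb hM _ _ _).trans hK
        · exact h2 o ho
      · rw [cond_true]
        refine ⟨h1, fun o ho => ?_, by simp⟩
        rcases List.mem_cons.1 ho with rfl | ho
        · exact (sz_cmb hM _ _ _).trans hK
        · exact h2 o ho
    obtain ⟨k1, k2, k3⟩ := key
    obtain ⟨i1, i2, i3⟩ := ih _ (fun x hx => h x (List.mem_cons_of_mem _ hx)) k1 k2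
    exact ⟨i1, i2, by rw [i3, k3, List.length_cons]; omega⟩

theorem cst_sz {M N j K : ℕ} (hM : 1 ≤ M) (hK : cb M N ≤ K) {rows : List (List ℕ)}
    (h : ∀ r ∈ rows, sz r ≤ K) :
    (∀ r ∈ cst M N rows j, sz r ≤ K) ∧ (cst M N rows j).length ≤ (M + 1) + rows.length := by
  have hK1 : 1 ≤ K := by
    refine le_trans ?_ hK
    unfold cb
    omega
  obtain ⟨i1, i2, i3⟩ := stp_fold (j := j) hM hK rows ([], []) h (by simpa using hK1)
    (fun r hr => absurd hr (List.not_mem_nil))
  unfold cst
  constructor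
  · intro r hr
    rw [List.mem_append, List.mem_map] at hr
    rcases hr with ⟨d, -, rfl⟩ | hr
    · exact (sz_cmb hM _ _ _).trans hK
    · exact i2 r hr
  · rw [List.length_append, i3, List.length_map]
    have := List.length_filter_le (fun d => decide (md M (d *
      (rows.foldl (stp M N j) ([], [])).1.getD j 0) = 0)) (List.range (M + 1))
    rw [List.length_range] at this
    simp only [List.length_nil, zero_add]
    omega

theorem cst_fold {M N K : ℕ} (hM : 1 ≤ M) (hK : cb M N ≤ K) (js : List ℕ) :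
    ∀ rows : List (List ℕ), (∀ r ∈ rows, sz r ≤ K) →
      (∀ r ∈ js.foldl (cst M N) rows, sz r ≤ K) ∧
      (js.foldl (cst M N) rows).length ≤ rows.length + js.length * (M + 1) := by
  induction js with
  | nil => intro rows h; exact ⟨h, by simp⟩
  | cons j js ih =>
    intro rows h
    simp only [List.foldl_cons]
    obtain ⟨h1, h2⟩ := cst_sz (j := j) hM hK h
    obtain ⟨i1, i2⟩ := ih _ h1
    refine ⟨i1, i2.trans ?_⟩
    rw [List.length_cons, Nat.succ_mul]
    omega

/-! ### Polynomial time -/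

section

variable {α : Type} [Enc α]

theorem pt_md {M x : α → ℕ} (hM : PolyTime M) (hx : PolyTime x) :
    PolyTime (fun a => md (M a) (x a)) := by
  unfold md
  exact hx.sub (hM.mul (Pool.Agent.PebAlg.polyTime_div hx hM))

theorem pt_fd {M x y : α → ℕ} (hM : PolyTime M) (hx : PolyTime x) (hy : PolyTime y) :
    PolyTime (fun a => fd (M a) (x a) (y a)) := by
  unfold fd
  refine PolyTime.headD (PolyTime.filter (f := fun (a : α) (d : ℕ) =>
    decide (md (M a) (x a + d * y a) = 0)) hM.range ?_) hM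
  exact (pt_md (hM.comp PolyTime.id.fst) ((hx.comp PolyTime.id.fst).add
    (PolyTime.id.snd.mul (hy.comp PolyTime.id.fst)))).isZero

theorem pt_cmb {M N d : α → ℕ} {r p : α → List ℕ} (hM : PolyTime M) (hN : PolyTime N)
    (hr : PolyTime r) (hd : PolyTime d) (hp : PolyTime p) :
    PolyTime (fun a => cmb (M a) (N a) (r a) (d a) (p a)) := by
  unfold cmb
  refine PolyTime.map (f := fun (a : α) (i : ℕ) =>
    md (M a) ((r a).getD i 0 + d a * (p a).getD i 0)) hN.succ.range ?_
  exact pt_md (hM.comp PolyTime.id.fst)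
    ((PolyTime.getD (hr.comp PolyTime.id.fst) PolyTime.id.snd (PolyTime.const 0)).add
      ((hd.comp PolyTime.id.fst).mul
        (PolyTime.getD (hp.comp PolyTime.id.fst) PolyTime.id.snd (PolyTime.const 0))))

theorem pt_stp {M N j : α → ℕ} {s : α → List ℕ × List (List ℕ)} {r : α → List ℕ}
    (hM : PolyTime M) (hN : PolyTime N) (hj : PolyTime j) (hs : PolyTime s) (hr : PolyTime r) :
    PolyTime (fun a => stp (M a) (N a) (j a) (s a) (r a)) := by
  unfold stp
  have h1 : PolyTime (fun a => (r a).getD (j a) 0) := PolyTime.getD hr hj (PolyTime.const 0)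
  have h2 : PolyTime (fun a => (s a).1.getD (j a) 0) := PolyTime.getD hs.fst hj (PolyTime.const 0)
  exact PolyTime.cond ((pt_fd hM h1 h2).lt hM)
    (hs.fst.pair ((pt_cmb hM hN hr (pt_fd hM h1 h2) hs.fst).cons hs.snd))
    (hr.pair ((pt_cmb hM hN hs.fst (pt_fd hM h2 h1) hr).cons hs.snd))

theorem pt_cb {M N : α → ℕ} (hM : PolyTime M) (hN : PolyTime N) :
    PolyTime (fun a => cb (M a) (N a)) := by
  unfold cb
  exact ((hN.succ).mul (((PolyTime.const 2).mul hM).add (PolyTime.const 2))).succ

theorem pt_bdd {f : α → ℕ} (hf : PolyTime f) : ∃ p : Polynomial ℕ, ∀ a, f a ≤ p.eval (sz a) := by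
  obtain ⟨p, hp⟩ := hf.sz_le
  refine ⟨p, fun a => ?_⟩
  have := hp a
  rw [sz_nat] at this
  omega

theorem pt_inner {M N j : α → ℕ} {rows : α → List (List ℕ)} (hM1 : ∀ a, 1 ≤ M a)
    (hM : PolyTime M) (hN : PolyTime N) (hj : PolyTime j) (hr : PolyTime rows) :
    PolyTime (fun a => (rows a).foldl (stp (M a) (N a) (j a)) ([], [])) := by
  refine PolyTime.foldl_add' (f := fun (a : α) (s : List ℕ × List (List ℕ)) (r : List ℕ) =>
    stp (M a) (N a) (j a) s r) hr (PolyTime.const (([], []) : List ℕ × List (List ℕ))) ?_ ?_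
  · exact pt_stp (hM.comp PolyTime.id.fst) (hN.comp PolyTime.id.fst) (hj.comp PolyTime.id.fst)
      PolyTime.id.snd.fst PolyTime.id.snd.snd
  · obtain ⟨p, hp⟩ := pt_bdd (pt_cb hM hN)
    refine ⟨Polynomial.X + p + 2, fun a s r => ?_⟩
    refine (sz_stp (hM1 a) s r).trans (Nat.add_le_add_left ?_ _)
    rw [Polynomial.eval_add, Polynomial.eval_add, Polynomial.eval_X]
    have h1 := (hp a).trans (poly_mono p (Nat.le_add_right (sz a) (sz r)))
    have h2 : (Polynomial.eval (sz a + sz r) (2 : Polynomial ℕ)) = 2 := by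
      rw [show (2 : Polynomial ℕ) = Polynomial.C 2 from rfl, Polynomial.eval_C]
    rw [h2]
    omega

theorem pt_cst {M N j : α → ℕ} {rows : α → List (List ℕ)} (hM1 : ∀ a, 1 ≤ M a)
    (hM : PolyTime M) (hN : PolyTime N) (hr : PolyTime rows) (hj : PolyTime j) :
    PolyTime (fun a => cst (M a) (N a) (rows a) (j a)) := by
  unfold cst
  have h1 := pt_inner hM1 hM hN hj hr
  refine PolyTime.append ?_ h1.snd
  refine PolyTime.map (f := fun (a : α) (d : ℕ) => cmb (M a) (N a) [] d
    ((rows a).foldl (stp (M a) (N a) (j a)) ([], [])).1) ?_ ?_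
  · refine PolyTime.filter (f := fun (a : α) (d : ℕ) => decide (md (M a) (d *
      ((rows a).foldl (stp (M a) (N a) (j a)) ([], [])).1.getD (j a) 0) = 0)) hM.succ.range ?_
    exact (pt_md (hM.comp PolyTime.id.fst) (PolyTime.id.snd.mul
      ((PolyTime.getD h1.fst hj (PolyTime.const 0)).comp PolyTime.id.fst))).isZero
  · exact pt_cmb (hM.comp PolyTime.id.fst) (hN.comp PolyTime.id.fst)
      (PolyTime.const ([] : List ℕ)) PolyTime.id.snd (h1.fst.comp PolyTime.id.fst)

theorem pt_outer {M N : α → ℕ} {rows : α → List (List ℕ)} (hM1 : ∀ a, 1 ≤ M a)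
    (hM : PolyTime M) (hN : PolyTime N) (hr : PolyTime rows) :
    PolyTime (fun a => (List.range (N a)).foldl (cst (M a) (N a)) (rows a)) := by
  refine PolyTime.foldl (f := fun (a : α) (S : List (List ℕ)) (j : ℕ) => cst (M a) (N a) S j)
    hN.range hr ?_ ?_
  · exact pt_cst (M := fun q : α × List (List ℕ) × ℕ => M q.1) (fun q => hM1 q.1)
      (hM.comp PolyTime.id.fst) (hN.comp PolyTime.id.fst) PolyTime.id.snd.fst PolyTime.id.snd.snd
  · obtain ⟨p, hp⟩ := pt_bdd (pt_cb hM hN)
    obtain ⟨pM, hpM⟩ := pt_bdd hM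
    obtain ⟨pN, hpN⟩ := pt_bdd hN
    obtain ⟨pr, hpr⟩ := hr.sz_le
    refine ⟨(pr + pN * (pM + 1)) * (p + pr + 1) + 1, fun a i hi => ?_⟩
    set K := cb (M a) (N a) + sz (rows a) with hK
    have h0 : ∀ r ∈ rows a, sz r ≤ K := fun r hr => by
      have := sz_mem_lt hr
      omega
    obtain ⟨h1, h2⟩ := cst_fold (hM1 a) (show cb (M a) (N a) ≤ K by omega)
      ((List.range (N a)).take i) (rows a) h0
    refine (sz_list_le h1).trans ?_
    have e1 : Polynomial.eval (sz a) ((pr + pN * (pM + 1)) * (p + pr + 1) + 1) =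
        (pr.eval (sz a) + pN.eval (sz a) * (pM.eval (sz a) + 1)) *
          (p.eval (sz a) + pr.eval (sz a) + 1) + 1 := by
      simp only [Polynomial.eval_add, Polynomial.eval_mul, Polynomial.eval_one]
    rw [e1]
    refine Nat.add_le_add_right (Nat.mul_le_mul ?_ ?_) _
    · refine h2.trans ?_
      have h3 : ((List.range (N a)).take i).length ≤ pN.eval (sz a) := by
        rw [List.length_take, List.length_range]
        exact (min_le_right _ _).trans (hpN a)
      have h4 := length_lt_sz (rows a)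
      have h5 := hpr a
      have h6 := hpM a
      exact Nat.add_le_add (by omega) (Nat.mul_le_mul h3 (by omega))
    · have h7 := hp a
      have h8 := hpr a
      omega

theorem pt_slv {M N : α → ℕ} {rows : α → List (List ℕ)} (hM1 : ∀ a, 1 ≤ M a)
    (hM : PolyTime M) (hN : PolyTime N) (hr : PolyTime rows) :
    PolyTime (fun a => slv (M a) (N a) (rows a)) := by
  unfold slv
  refine PolyTime.all (f := fun (a : α) (r : List ℕ) => decide (md (M a) (r.getD (N a) 0) = 0))
    (pt_outer hM1 hM hN hr) ?_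
  exact (pt_md (hM.comp PolyTime.id.fst) (PolyTime.getD PolyTime.id.snd
    (hN.comp PolyTime.id.fst) (PolyTime.const 0))).isZero

/-! ### Graphs -/

private theorem pt_side {f : α → List Bool} (hf : PolyTime f) :
    PolyTime (fun a => side (f a)) := Pool.Agent.PebAlg.polyTime_side hf

private theorem pt_adj {f : α → List Bool} {i j : α → ℕ} (hf : PolyTime f) (hi : PolyTime i)
    (hj : PolyTime j) : PolyTime (fun a => adj (f a) (i a) (j a)) :=
  Pool.Agent.PebAlg.polyTime_adj hf hi hj

private theorem pt_deg {f : α → List Bool} {v : α → ℕ} (hf : PolyTime f) (hv : PolyTime v) :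
    PolyTime (fun x => deg (f x) (v x)) := by
  unfold deg
  exact (PolyTime.filter (f := fun (x : α) (u : ℕ) => adj (f x) u (v x)) (pt_side hf).range
    (pt_adj (hf.comp PolyTime.id.fst) PolyTime.id.snd (hv.comp PolyTime.id.fst))).length

theorem pt_nlB {f : α → List Bool} {v : α → ℕ} (hf : PolyTime f) (hv : PolyTime v) :
    PolyTime (fun a => nlB (f a) (v a)) := by
  unfold nlB
  refine (PolyTime.filter (f := fun (a : α) (u : ℕ) =>
    adj (f a) (v a) u && decide (deg (f a) u = 1)) (pt_side hf).range ?_).length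
  have f1 : PolyTime (fun c : α × ℕ => f c.1) := hf.comp PolyTime.id.fst
  exact (pt_adj f1 (hv.comp PolyTime.id.fst) PolyTime.id.snd).and
    ((pt_deg f1 PolyTime.id.snd).eqNat (PolyTime.const 1))

theorem pt_tAB {f : α → List Bool} {v : α → ℕ} (hf : PolyTime f) (hv : PolyTime v) :
    PolyTime (fun a => tAB (f a) (v a)) := by
  unfold tAB
  exact ((pt_nlB hf hv).eqNat (PolyTime.const 0)).and ((PolyTime.const 2).le (pt_deg hf hv))

theorem pt_tSB {f : α → List Bool} {v : α → ℕ} (hf : PolyTime f) (hv : PolyTime v) :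
    PolyTime (fun a => tSB (f a) (v a)) := by
  unfold tSB
  exact ((pt_nlB hf hv).eqNat (PolyTime.const 1)).and ((PolyTime.const 2).le (pt_deg hf hv))

theorem pt_tEB {f : α → List Bool} {v : α → ℕ} (hf : PolyTime f) (hv : PolyTime v) :
    PolyTime (fun a => tEB (f a) (v a)) := by
  unfold tEB
  exact (pt_nlB hf hv).eqNat (PolyTime.const 2)

theorem pt_tOB {f : α → List Bool} {v : α → ℕ} (hf : PolyTime f) (hv : PolyTime v) :
    PolyTime (fun a => tOB (f a) (v a)) := by
  unfold tOB
  exact (pt_nlB hf hv).eqNat (PolyTime.const 3)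

theorem pt_mkB {f : α → List Bool} (hf : PolyTime f) : PolyTime (fun a => mkB (f a)) := by
  unfold mkB
  exact (PolyTime.filter (f := fun (a : α) (v : ℕ) => decide (nlB (f a) v = 4)) (pt_side hf).range
    ((pt_nlB (hf.comp PolyTime.id.fst) PolyTime.id.snd).eqNat (PolyTime.const 4))).length

theorem pt_pkB {f : α → List Bool} (hf : PolyTime f) : PolyTime (fun a => pkB (f a)) := by
  unfold pkB
  have f1 : PolyTime (fun c : α × ℕ => f c.1) := hf.comp PolyTime.id.fst
  exact (PolyTime.filter (f := fun (a : α) (v : ℕ) => tEB (f a) v || tOB (f a) v)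
    (pt_side hf).range ((pt_tEB f1 PolyTime.id.snd).or (pt_tOB f1 PolyTime.id.snd))).length

theorem pt_mdl {f : α → List Bool} (hf : PolyTime f) : PolyTime (fun a => mdl (f a)) := by
  unfold mdl
  refine PolyTime.foldl_add' (f := fun (a : α) (m : ℕ) (x : ℕ) => dbl (side (f a)) m x)
    (pt_mkB hf).range (PolyTime.const 1) ?_ ?_
  · unfold dbl
    have h2 : PolyTime (fun q : α × ℕ × ℕ => 2 * q.2.1) :=
      (PolyTime.const 2).mul PolyTime.id.snd.fst
    exact PolyTime.cond (h2.le (pt_side (hf.comp PolyTime.id.fst))) h2 PolyTime.id.snd.fst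
  · obtain ⟨p, hp⟩ := pt_bdd (pt_side hf)
    refine ⟨2 * p, fun a m x => ?_⟩
    have h1 := (hp a).trans (poly_mono p (Nat.le_add_right (sz a) (sz x)))
    have h2 : Polynomial.eval (sz a + sz x) (2 * p) = 2 * p.eval (sz a + sz x) := by
      rw [Polynomial.eval_mul, show (2 : Polynomial ℕ) = Polynomial.C 2 from rfl,
        Polynomial.eval_C]
    rw [h2, sz_nat, sz_nat]
    unfold dbl
    by_cases h : 2 * m ≤ side (f a)
    · rw [decide_eq_true h, cond_true]
      omega
    · rw [decide_eq_false h, cond_false]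
      omega

theorem mdl_pos (w : List Bool) : 1 ≤ mdl w := by
  unfold mdl
  rw [dbl_foldl]
  exact Nat.one_le_two_pow

theorem pt_cfA {f : α → List Bool} {x i : α → ℕ} (hf : PolyTime f) (hx : PolyTime x)
    (hi : PolyTime i) : PolyTime (fun a => cfA (f a) (x a) (i a)) := by
  unfold cfA
  exact PolyTime.cond ((pt_tAB hf hx).and (pt_adj hf hx hi))
    (PolyTime.cond (pt_tSB hf hi) (PolyTime.const 1)
      (PolyTime.cond ((pt_tEB hf hi).or (pt_tOB hf hi)) (pt_mdl hf).pred (PolyTime.const 0)))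
    (PolyTime.const 0)

theorem pt_rws {f : α → List Bool} (hf : PolyTime f) : PolyTime (fun a => rws (f a)) := by
  unfold rws rowF rowA
  have f1 : PolyTime (fun c : α × ℕ => f c.1) := hf.comp PolyTime.id.fst
  refine PolyTime.cons (PolyTime.append ?_ ?_) ?_
  · refine PolyTime.map (f := fun (a : α) (i : ℕ) => cfF (f a) i) (pt_side hf).range ?_
    unfold cfF
    exact PolyTime.cond (pt_tEB f1 PolyTime.id.snd) (PolyTime.const 1)
      (PolyTime.cond (pt_tOB f1 PolyTime.id.snd) (pt_mdl f1).pred (PolyTime.const 0))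
  · exact PolyTime.cons (Pool.Agent.PebAlg.polyTime_div (pt_mdl hf) (PolyTime.const 2))
      (PolyTime.const ([] : List ℕ))
  · refine PolyTime.map (f := fun (a : α) (x : ℕ) =>
      (List.range (side (f a))).map (cfA (f a) x) ++ [0]) (pt_side hf).range ?_
    refine PolyTime.append ?_ (PolyTime.const ([0] : List ℕ))
    refine PolyTime.map (f := fun (c : α × ℕ) (i : ℕ) => cfA (f c.1) c.2 i)
      (pt_side f1).range ?_
    exact pt_cfA (f1.comp PolyTime.id.fst) PolyTime.id.fst.snd PolyTime.id.snd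

end

theorem pt_slvw : PolyTime (fun w : List Bool => slv (mdl w) (side w) (rws w)) :=
  pt_slv mdl_pos (pt_mdl PolyTime.id) (pt_side PolyTime.id) (pt_rws PolyTime.id)

theorem pt_dec : PolyTime dec := by
  unfold dec
  exact pt_slvw.cons (PolyTime.const [])

theorem pt_inva : PolyTime inva := by
  unfold inva
  refine pt_slvw.cons (PolyTime.append ?_ (PolyTime.cons (PolyTime.const false) ?_))
  · exact PolyTime.map (f := fun (_ : List Bool) (_ : ℕ) => true) (pt_mkB PolyTime.id).range
      (PolyTime.const true)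
  · exact PolyTime.map (f := fun (_ : List Bool) (_ : ℕ) => true) (pt_pkB PolyTime.id).range
      (PolyTime.const true)

end Pool.Agent.CLA.P
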