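import Pool.Agent.CLA.P.Ins
import Pool.Agent.CLA.P.Tim
import Pool.Agent.Lib.PolyTime.ToTM2

/-!
# The polynomial-time side

`Lg` is a class of finite graphs, closed under isomorphisms and decided on all graphs by a
polynomial-time Turing machine: a certain linear system over `ZMod (2 ^ m)` is solvable. It contains
the graphs `XG l n (tw n v0)` and does not contain the graphs `XG l n 0`. The function `inva` is
computed in polynomial time and is a complete invariant of the class `Cls` of these graphs.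
-/

set_option autoImplicit false

namespace Pool.Agent.CLA.P

open Finset Classical
open Pool.Agent.CPT
open Pool.Agent.CPT.P (dg gcode)

/-- the class of graphs -/
def Lg (V : Type) (G : SimpleGraph V) : Prop := Qr V G

theorem lg_iso' (V W : Type) (G : SimpleGraph V) (H : SimpleGraph W) (h : Lg V G) :
    Nonempty (G ≃g H) → Lg W H := qr_iso V W G H h

theorem dec_time : Nonempty (Turing.TM2ComputableInPolyTime (fun w : List Bool => w)
    (fun w : List Bool => w) dec) :=
  Pool.Agent.Lib.PT.ToTM2.polyTime_toTM2 _ pt_dec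

theorem inva_time : Nonempty (Turing.TM2ComputableInPolyTime (fun w : List Bool => w)
    (fun w : List Bool => w) inva) :=
  Pool.Agent.Lib.PT.ToTM2.polyTime_toTM2 _ pt_inva

theorem dec_iff' {n : ℕ} (G : SimpleGraph (Fin n)) : dec (gcode G) = [true] ↔ Lg (Fin n) G :=
  dec_iff

variable {l n : ℕ}

theorem lg_tw (hl : 2 ≤ l) (hn : 1 ≤ n) (v0 : Vx l) : Lg _ (XG l n (tw n v0)) := qr_tw hl hn v0

theorem not_lg_zero (hl : 2 ≤ l) (hn : 1 ≤ n) : ¬ Lg _ (XG l n (0 : Vx l → Rn n)) :=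
  not_qr_zero hl hn

theorem XG_not_iso (hl : 2 ≤ l) (hn : 1 ≤ n) (v0 : Vx l) :
    IsEmpty (XG l n (0 : Vx l → Rn n) ≃g XG l n (tw n v0)) :=
  ⟨fun e => not_lg_zero hl hn (lg_iso' _ _ _ _ (lg_tw hl hn v0) ⟨e.symm⟩)⟩

/-! ### The complete invariant -/

/-- the class of the graphs isomorphic to one of the twins -/
def Cls (V : Type) (G : SimpleGraph V) : Prop :=
  ∃ (l n : ℕ) (hl : 2 ≤ l) (_ : 1 ≤ n), Nonempty (XG l n 0 ≃g G) ∨
    Nonempty (XG l n (tw n (fun _ => ⟨0, by omega⟩)) ≃g G)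

theorem cls_iso (V W : Type) (G : SimpleGraph V) (H : SimpleGraph W) (h : Cls V G) :
    Nonempty (G ≃g H) → Cls W H := by
  rintro ⟨f⟩
  obtain ⟨l, n, hl, hn, h⟩ := h
  refine ⟨l, n, hl, hn, ?_⟩
  rcases h with ⟨⟨e⟩⟩ | ⟨⟨e⟩⟩
  · exact Or.inl ⟨e.trans f⟩
  · exact Or.inr ⟨e.trans f⟩

theorem inva_eq (hl : 2 ≤ l) {τ : Vx l → Rn n} {N : ℕ} {G : SimpleGraph (Fin N)}
    (e : XG l n τ ≃g G) :
    inva (gcode G) = decide (Lg _ (XG l n τ)) ::
      (List.replicate n true ++ (false :: List.replicate (l ^ 3) true)) := by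
  rw [inva_gcode, ← mk_iso e, ← pk_iso e, mk_XG hl, pk_XG hl]
  congr 1
  rw [decide_eq_decide]
  exact ⟨fun h => lg_iso' _ _ _ _ h ⟨e.symm⟩, fun h => lg_iso' _ _ _ _ h ⟨e⟩⟩

theorem repl_inj {n n' k k' : ℕ} (h : List.replicate n true ++ (false :: List.replicate k true) =
    List.replicate n' true ++ (false :: List.replicate k' true)) : n = n' ∧ k = k' := by
  induction n generalizing n' with
  | zero =>
    cases n' with
    | zero =>
      simp only [List.replicate_zero, List.nil_append, List.cons.injEq, true_and] at h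
      have := congrArg List.length h
      simp only [List.length_replicate] at this
      exact ⟨rfl, this⟩
    | succ n' => simp [List.replicate_succ] at h
  | succ n ih =>
    cases n' with
    | zero => simp [List.replicate_succ] at h
    | succ n' =>
      simp only [List.replicate_succ, List.cons_append, List.cons.injEq, true_and] at h
      obtain ⟨h1, h2⟩ := ih h
      exact ⟨by omega, h2⟩

theorem inva_complete (N N' : ℕ) (G : SimpleGraph (Fin N)) (H : SimpleGraph (Fin N'))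
    (hG : Cls _ G) (hH : Cls _ H) :
    inva (gcode G) = inva (gcode H) ↔ Nonempty (G ≃g H) := by
  constructor
  · intro h
    obtain ⟨l, n, hl, hn, hG⟩ := hG
    obtain ⟨l', n', hl', hn', hH⟩ := hH
    have key : ∀ (τ : Vx l → Rn n) (τ' : Vx l' → Rn n'), XG l n τ ≃g G → XG l' n' τ' ≃g H →
        l = l' ∧ n = n' ∧ (Lg _ (XG l n τ) ↔ Lg _ (XG l' n' τ')) := by
      intro τ τ' e e'
      rw [inva_eq hl e, inva_eq hl' e', List.cons.injEq, decide_eq_decide] at h
      obtain ⟨h1, h2⟩ := repl_inj h.2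
      exact ⟨Nat.pow_left_injective (n := 3) (by norm_num) h2, h1, h.1⟩
    rcases hG with ⟨⟨e⟩⟩ | ⟨⟨e⟩⟩ <;> rcases hH with ⟨⟨e'⟩⟩ | ⟨⟨e'⟩⟩
    · obtain ⟨rfl, rfl, -⟩ := key _ _ e e'
      exact ⟨e.symm.trans e'⟩
    · obtain ⟨rfl, rfl, h2⟩ := key _ _ e e'
      exact absurd (h2.2 (lg_tw hl hn _)) (not_lg_zero hl hn)
    · obtain ⟨rfl, rfl, h2⟩ := key _ _ e e'
      exact absurd (h2.1 (lg_tw hl hn _)) (not_lg_zero hl hn)
    · obtain ⟨rfl, rfl, -⟩ := key _ _ e e'
      exact ⟨e.symm.trans e'⟩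
  · rintro ⟨f⟩
    obtain ⟨l, n, hl, hn, hG⟩ := hG
    rcases hG with ⟨⟨e⟩⟩ | ⟨⟨e⟩⟩
    · rw [inva_eq hl e, inva_eq hl (e.trans f)]
    · rw [inva_eq hl e, inva_eq hl (e.trans f)]

end Pool.Agent.CLA.P
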